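import Pool.Agent.H283.HT.Stm

set_option autoImplicit false

namespace Pool.Agent.H345.HTX

open Pool.Agent.H283.HT

/-- The set of the slopes. -/
def slopes (F : Set P2) (f₀ ν₀ u₀ : P2) : Set ℝ :=
  {ρ | ∃ f ∈ F, 0 < dt u₀ (f - f₀) ∧ ρ * dt u₀ (f - f₀) = - dt ν₀ (f - f₀)}

theorem W1_aux (F : Set P2) (f₀ ν₀ u₀ : P2)
    (hpos : ∀ ν : P2, ν ≠ 0 → ∃ x ∈ F, 0 < dt ν x)
    (hmax : ∀ x ∈ F, dt ν₀ x ≤ dt ν₀ f₀)
    (hN : 0 < dt ν₀ ν₀) (huu : dt u₀ u₀ = dt ν₀ ν₀) (huv : dt u₀ ν₀ = 0)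
    (hdec : ∀ g : P2, dt ν₀ ν₀ • g = dt u₀ g • u₀ + dt ν₀ g • ν₀)
    (hex : ∃ f ∈ F, 0 < dt u₀ (f - f₀)) :
    ∃ w ν : P2, w ≠ 0 ∧ ν ≠ 0 ∧ dt ν w = 0 ∧ (∀ f ∈ F, dt ν f ≤ dt ν f₀) ∧ 0 < dt ν f₀ ∧
      ∀ ε : ℝ, 0 < ε → ∃ f ∈ F, ∃ (s : ℝ) (η : P2), 0 < s ∧ |η.1| < ε ∧ |η.2| < ε ∧
        f = f₀ + s • (w + η) := by
  have hne : (slopes F f₀ ν₀ u₀).Nonempty := by
    obtain ⟨f, hf, h⟩ := hex
    refine ⟨- dt ν₀ (f - f₀) / dt u₀ (f - f₀), f, hf, h, ?_⟩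
    rw [div_mul_cancel₀ _ h.ne']
  have hsub : ∀ f : P2, ∀ v : P2, dt v (f - f₀) = dt v f - dt v f₀ := by
    intro f v
    simp only [dt, Prod.fst_sub, Prod.snd_sub]
    ring
  have hnn : ∀ ρ ∈ slopes F f₀ ν₀ u₀, 0 ≤ ρ := by
    rintro ρ ⟨f, hf, h1, h2⟩
    have h3 : dt ν₀ (f - f₀) ≤ 0 := by
      rw [hsub]
      linarith [hmax f hf]
    by_contra hρ
    push Not at hρ
    have := mul_neg_of_neg_of_pos hρ h1
    linarith
  have hbdd : BddBelow (slopes F f₀ ν₀ u₀) := ⟨0, hnn⟩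
  obtain ⟨m, hm⟩ : ∃ m, m = sInf (slopes F f₀ ν₀ u₀) := ⟨_, rfl⟩
  have hm0 : 0 ≤ m := by
    rw [hm]
    exact le_csInf hne hnn
  have hvu : dt ν₀ u₀ = 0 := by
    rw [← huv]
    simp only [dt]
    ring
  have hlin : ∀ g : P2, dt (ν₀ + m • u₀) g = dt ν₀ g + m * dt u₀ g := by
    intro g
    simp only [dt, Prod.fst_add, Prod.snd_add, Prod.smul_fst, Prod.smul_snd, smul_eq_mul]
    ring
  have hlin2 : ∀ g : P2, dt g (u₀ - m • ν₀) = dt g u₀ - m * dt g ν₀ := by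
    intro g
    simp only [dt, Prod.fst_sub, Prod.snd_sub, Prod.smul_fst, Prod.smul_snd, smul_eq_mul]
    ring
  have hν : ν₀ + m • u₀ ≠ 0 := by
    intro h0
    have h1 := hlin ν₀
    rw [h0, huv] at h1
    have h2 : dt (0 : P2) ν₀ = 0 := by simp [dt]
    rw [h2] at h1
    linarith
  have hw : u₀ - m • ν₀ ≠ 0 := by
    intro h0
    have h1 := hlin2 u₀
    rw [h0, huv, huu] at h1
    have h2 : dt u₀ (0 : P2) = 0 := by simp [dt]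
    rw [h2] at h1
    linarith
  have hmaxν : ∀ f ∈ F, dt (ν₀ + m • u₀) f ≤ dt (ν₀ + m • u₀) f₀ := by
    intro f hf
    have h1 : dt (ν₀ + m • u₀) (f - f₀) ≤ 0 := by
      rw [hlin]
      have h3 : dt ν₀ (f - f₀) ≤ 0 := by
        rw [hsub]
        linarith [hmax f hf]
      rcases le_or_gt (dt u₀ (f - f₀)) 0 with h4 | h4
      · have := mul_nonpos_of_nonneg_of_nonpos hm0 h4
        linarith
      · have h5 : m ≤ - dt ν₀ (f - f₀) / dt u₀ (f - f₀) := by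
          rw [hm]
          refine csInf_le hbdd ⟨f, hf, h4, ?_⟩
          rw [div_mul_cancel₀ _ h4.ne']
        rw [le_div_iff₀ h4] at h5
        linarith
    rw [hsub] at h1
    linarith
  refine ⟨u₀ - m • ν₀, ν₀ + m • u₀, hw, hν, ?_, hmaxν, ?_, ?_⟩
  · rw [hlin2, hlin, hlin, huv, hvu, huu]
    ring
  · obtain ⟨x, hx, h1⟩ := hpos _ hν
    exact lt_of_lt_of_le h1 (hmaxν x hx)
  · intro ε hε
    have hK : 0 < 1 + |ν₀.1| + |ν₀.2| := by positivity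
    obtain ⟨ρ, ⟨f, hf, h1, h2⟩, h3⟩ : ∃ ρ ∈ slopes F f₀ ν₀ u₀,
        ρ < m + ε / (1 + |ν₀.1| + |ν₀.2|) := by
      apply exists_lt_of_csInf_lt hne
      rw [← hm]
      have : 0 < ε / (1 + |ν₀.1| + |ν₀.2|) := by positivity
      linarith
    have h4 : m ≤ ρ := by
      rw [hm]
      exact csInf_le hbdd ⟨f, hf, h1, h2⟩
    have h5 : (ρ - m) * (1 + |ν₀.1| + |ν₀.2|) < ε := by
      have h6 : ρ - m < ε / (1 + |ν₀.1| + |ν₀.2|) := by linarith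
      rwa [lt_div_iff₀ hK] at h6
    have habs : |m - ρ| = ρ - m := by
      rw [abs_sub_comm]
      exact abs_of_nonneg (by linarith)
    have h7 : 0 ≤ ρ - m := by linarith
    refine ⟨f, hf, dt u₀ (f - f₀) / dt ν₀ ν₀, (m - ρ) • ν₀, by positivity, ?_, ?_, ?_⟩
    · rw [Prod.smul_fst, smul_eq_mul, abs_mul, habs]
      have h8 : (ρ - m) * |ν₀.1| ≤ (ρ - m) * (1 + |ν₀.1| + |ν₀.2|) := by
        apply mul_le_mul_of_nonneg_left _ h7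
        linarith [abs_nonneg ν₀.2]
      linarith
    · rw [Prod.smul_snd, smul_eq_mul, abs_mul, habs]
      have h8 : (ρ - m) * |ν₀.2| ≤ (ρ - m) * (1 + |ν₀.1| + |ν₀.2|) := by
        apply mul_le_mul_of_nonneg_left _ h7
        linarith [abs_nonneg ν₀.1]
      linarith
    · have h8 := hdec (f - f₀)
      have h9 : u₀ - m • ν₀ + (m - ρ) • ν₀ = u₀ - ρ • ν₀ := by
        rw [sub_smul]
        abel
      have h10 : dt u₀ (f - f₀) • (u₀ - ρ • ν₀) = dt ν₀ ν₀ • (f - f₀) := by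
        rw [h8, smul_sub, smul_smul, mul_comm _ ρ, h2, neg_smul, sub_neg_eq_add]
      have h11 : (dt u₀ (f - f₀) / dt ν₀ ν₀) • (u₀ - ρ • ν₀) = f - f₀ := by
        rw [div_eq_inv_mul, mul_smul, h10, smul_smul, inv_mul_cancel₀ hN.ne', one_smul]
      rw [h9, h11]
      abel

theorem W1_done (hDI : S_DI) : S_W1 := by
  intro F hF f₀ hf₀ hf₀i
  obtain ⟨-, h2, -, h4⟩ := hDI F hF
  obtain ⟨ν₀, hν₀, hmax, hp⟩ := h2 f₀ hf₀ hf₀i
  have hN : 0 < dt ν₀ ν₀ := by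
    have h5 : ν₀.1 ≠ 0 ∨ ν₀.2 ≠ 0 := by
      by_contra hc
      push Not at hc
      exact hν₀ (Prod.ext hc.1 hc.2)
    simp only [dt]
    rcases h5 with h5 | h5
    · have := mul_self_pos.mpr h5
      have := mul_self_nonneg ν₀.2
      linarith
    · have := mul_self_pos.mpr h5
      have := mul_self_nonneg ν₀.1
      linarith
  -- the sign of the second vector
  obtain ⟨σ, hσ, hσ2⟩ : ∃ σ : ℝ, σ * σ = 1 ∧ dt (σ * -ν₀.2, σ * ν₀.1) f₀ ≤ 0 := by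
    rcases le_total (dt (-ν₀.2, ν₀.1) f₀) 0 with h | h
    · refine ⟨1, by norm_num, ?_⟩
      simpa only [one_mul] using h
    · refine ⟨-1, by norm_num, ?_⟩
      simp only [dt] at h ⊢
      nlinarith
  have hu0 : ((σ * -ν₀.2, σ * ν₀.1) : P2) ≠ 0 := by
    intro h0
    have h1 : σ * -ν₀.2 = 0 := congrArg Prod.fst h0
    have h3 : σ * ν₀.1 = 0 := congrArg Prod.snd h0
    have hσ0 : σ ≠ 0 := by
      rintro rfl
      norm_num at hσ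
    apply hν₀
    refine Prod.ext ?_ ?_
    · exact (mul_eq_zero.mp h3).resolve_left hσ0
    · have := (mul_eq_zero.mp h1).resolve_left hσ0
      show ν₀.2 = 0
      linarith
  obtain ⟨x, hx, hx1⟩ := h4 _ hu0
  apply W1_aux F f₀ ν₀ (σ * -ν₀.2, σ * ν₀.1) h4 hmax hN
  · simp only [dt]
    calc σ * -ν₀.2 * (σ * -ν₀.2) + σ * ν₀.1 * (σ * ν₀.1)
        = (σ * σ) * (ν₀.1 * ν₀.1 + ν₀.2 * ν₀.2) := by ring
      _ = _ := by rw [hσ, one_mul]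
  · simp only [dt]
    ring
  · intro g
    refine Prod.ext ?_ ?_
    · simp only [dt, Prod.fst_add, Prod.smul_fst, smul_eq_mul]
      calc (ν₀.1 * ν₀.1 + ν₀.2 * ν₀.2) * g.1
          = (-ν₀.2 * g.1 + ν₀.1 * g.2) * -ν₀.2 * 1 + (ν₀.1 * g.1 + ν₀.2 * g.2) * ν₀.1 := by ring
        _ = (-ν₀.2 * g.1 + ν₀.1 * g.2) * -ν₀.2 * (σ * σ) + (ν₀.1 * g.1 + ν₀.2 * g.2) * ν₀.1 := by
            rw [hσ]
        _ = _ := by ring
    · simp only [dt, Prod.snd_add, Prod.smul_snd, smul_eq_mul]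
      calc (ν₀.1 * ν₀.1 + ν₀.2 * ν₀.2) * g.2
          = (-ν₀.2 * g.1 + ν₀.1 * g.2) * ν₀.1 * 1 + (ν₀.1 * g.1 + ν₀.2 * g.2) * ν₀.2 := by ring
        _ = (-ν₀.2 * g.1 + ν₀.1 * g.2) * ν₀.1 * (σ * σ) + (ν₀.1 * g.1 + ν₀.2 * g.2) * ν₀.2 := by
            rw [hσ]
        _ = _ := by ring
  · refine ⟨x, hx, ?_⟩
    have : dt (σ * -ν₀.2, σ * ν₀.1) (x - f₀) =
        dt (σ * -ν₀.2, σ * ν₀.1) x - dt (σ * -ν₀.2, σ * ν₀.1) f₀ := by
      simp only [dt, Prod.fst_sub, Prod.snd_sub]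
      ring
    rw [this]
    linarith

end Pool.Agent.H345.HTX
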