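import Pool.Agent.H193.OZ.Stm

/-!
# OZ-P: fixed vectors and projections in `VN` (helper345 for helper193)
-/

set_option autoImplicit false

namespace Pool.Agent.H345.OZP

open Pool.Agent.H193.OZ

open scoped ComplexConjugate ENNReal InnerProductSpace

/-- the squares of the values of an element of `ℓ²` are summable -/
theorem summ {G : Type} (w : L2 G) : Summable fun z : G => ‖w z‖ ^ (2 : ℝ) := by
  have h := lp.memℓp w
  rw [memℓp_gen_iff (by norm_num)] at h
  have e : (2 : ℝ≥0∞).toReal = 2 := by norm_num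
  rw [e] at h
  exact h

theorem s_I : S_I := by
  intro G _ q N hN hq
  have key : ∀ (f : L2 G) (y : G), (q f) y = 0 := by
    intro f y
    by_contra hne
    have h0 : 0 < ‖(q f) y‖ ^ (2 : ℝ) := by
      have : 0 < ‖(q f) y‖ := norm_pos_iff.2 hne
      positivity
    have h1 := (summ (q f)).tendsto_cofinite_zero
    have h2 := h1.eventually (gt_mem_nhds h0)
    rw [Filter.eventually_cofinite] at h2
    have h3 : ((fun x : G => x⁻¹ * y) '' N).Infinite :=
      hN.image (fun a _ b _ hab => inv_injective (mul_right_cancel hab))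
    refine h3 (h2.subset ?_)
    rintro _ ⟨x, hx, rfl⟩
    simp only [Set.mem_setOf_eq, not_lt]
    rw [hq x hx f y]
  refine ContinuousLinearMap.ext fun f => ?_
  refine lp.ext (funext fun y => ?_)
  rw [key f y]
  rfl

section

variable {H : Type} [Group H]

/-- the right translate of a vector -/
noncomputable def tr (g : H) (f : L2 H) : L2 H :=
  ⟨fun x => f (x * g), by
    have h := summ f
    have h1 : Summable fun x : H => ‖f (x * g)‖ ^ (2 : ℝ) :=
      (Equiv.mulRight g).summable_iff.2 h
    refine (memℓp_gen_iff (by norm_num)).2 ?_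
    have e : (2 : ℝ≥0∞).toReal = 2 := by norm_num
    rw [e]
    exact h1⟩

theorem tr_apply (g : H) (f : L2 H) (x : H) : tr g f x = f (x * g) := rfl

theorem inner_tr (g : H) (w f : L2 H) : ⟪w, tr g f⟫_ℂ = ⟪tr g⁻¹ w, f⟫_ℂ := by
  rw [lp.inner_eq_tsum, lp.inner_eq_tsum]
  have h := (Equiv.mulRight g).tsum_eq (fun x : H => ⟪tr g⁻¹ w x, f x⟫_ℂ)
  rw [← h]
  refine tsum_congr fun x => ?_
  rw [Equiv.coe_mulRight, tr_apply, tr_apply, mul_assoc, mul_inv_cancel, mul_one]

/-- the common fixed vectors -/
def Vf (W : Set (Bd H)) : Submodule ℂ (L2 H) where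
  carrier := {u | ∀ T ∈ W, T u = u}
  add_mem' := fun {a b} ha hb T hT => by rw [map_add, ha T hT, hb T hT]
  zero_mem' := fun T _ => map_zero T
  smul_mem' := fun c a ha T hT => by rw [map_smul, ha T hT]

theorem mem_Vf {W : Set (Bd H)} {u : L2 H} : u ∈ Vf W ↔ ∀ T ∈ W, T u = u := Iff.rfl

theorem Vf_closed (W : Set (Bd H)) : IsClosed (Vf W : Set (L2 H)) := by
  have e : (Vf W : Set (L2 H)) = ⋂ T ∈ W, {u | T u = u} := by
    ext u
    simp only [SetLike.mem_coe, mem_Vf, Set.mem_iInter, Set.mem_setOf_eq]
  rw [e]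
  exact isClosed_biInter fun T _ => isClosed_eq T.continuous continuous_id

theorem tr_mem {W : Set (Bd H)} (hW : W ⊆ VN H) (g : H) {u : L2 H} (hu : u ∈ Vf W) :
    tr g u ∈ Vf W := by
  intro T hT
  refine lp.ext (funext fun x => ?_)
  rw [hW hT g u (tr g u) (fun x => rfl) x, mem_Vf.1 hu T hT, tr_apply]

end

theorem s_P : S_P := by
  intro H _ W hW v hv hfix
  have hc : CompleteSpace (Vf W) := (Vf_closed W).completeSpace_coe
  refine ⟨(Vf W).starProjection, ?_, ?_, ?_⟩
  · intro g f f' hf x
    have hf' : f' = tr g f := lp.ext (funext hf)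
    have h1 : (Vf W).starProjection f' = tr g ((Vf W).starProjection f) := by
      refine Submodule.eq_starProjection_of_mem_of_inner_eq_zero
        (tr_mem hW g (Submodule.starProjection_apply_mem _ _)) fun w hw => ?_
      have h2 : f' - tr g ((Vf W).starProjection f) = tr g (f - (Vf W).starProjection f) := by
        rw [hf']
        refine lp.ext (funext fun x => ?_)
        rfl
      rw [h2, ← inner_conj_symm, inner_tr, inner_conj_symm]
      exact Submodule.starProjection_inner_eq_zero _ _ (tr_mem hW g⁻¹ hw)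
    rw [h1, tr_apply]
  · intro h0
    have h1 : (Vf W).starProjection v = v :=
      Submodule.starProjection_eq_self_iff.2 (mem_Vf.2 hfix)
    rw [h0] at h1
    exact hv h1.symm
  · intro T hT
    refine ContinuousLinearMap.ext fun f => ?_
    exact mem_Vf.1 (Submodule.starProjection_apply_mem (Vf W) f) T hT

end Pool.Agent.H345.OZP
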