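import Pool.Agent.H345.RInfDefs

/-!
Property `R_∞` from infinitely many finite simple quotients.
-/

namespace Pool.Agent.H345.RInf

section Simple

variable {A : Type*} [Group A] {Q : Type*} [Group Q]

lemma map_eq_top [IsSimpleGroup Q] (f : A →* Q) (hf : Function.Surjective f)
    (M : Subgroup A) (hM : M.Normal) (h : ∃ m ∈ M, f m ≠ 1) : M.map f = ⊤ := by
  have hN : (M.map f).Normal := hM.map f hf
  rcases hN.eq_bot_or_eq_top with h1 | h1
  · exfalso
    obtain ⟨m, hm, hne⟩ := h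
    apply hne
    have : f m ∈ M.map f := Subgroup.mem_map_of_mem f hm
    rw [h1] at this
    simpa using this
  · exact h1

lemma exists_mem_eq [IsSimpleGroup Q] (f : A →* Q) (hf : Function.Surjective f)
    (M : Subgroup A) (hM : M.Normal) (h : ∃ m ∈ M, f m ≠ 1) (q : Q) : ∃ m ∈ M, f m = q := by
  have h1 := map_eq_top f hf M hM h
  have : q ∈ M.map f := by rw [h1]; trivial
  simpa [Subgroup.mem_map] using this

lemma indep2 [IsSimpleGroup Q] (hnc : ∃ a b : Q, a * b ≠ b * a) (f : A →* Q)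
    (hf : Function.Surjective f) (M₁ M₂ : Subgroup A) (h₁ : M₁.Normal) (h₂ : M₂.Normal)
    (h1 : ∃ m ∈ M₁, f m ≠ 1) (h2 : ∃ m ∈ M₂, f m ≠ 1) : ∃ m ∈ M₁ ⊓ M₂, f m ≠ 1 := by
  obtain ⟨a, b, hab⟩ := hnc
  obtain ⟨m₁, hm₁, rfl⟩ := exists_mem_eq f hf M₁ h₁ h1 a
  obtain ⟨m₂, hm₂, rfl⟩ := exists_mem_eq f hf M₂ h₂ h2 b
  refine ⟨m₁ * m₂ * m₁⁻¹ * m₂⁻¹, ⟨?_, ?_⟩, ?_⟩
  · have := M₁.mul_mem hm₁ (h₁.conj_mem _ (M₁.inv_mem hm₁) m₂)
    simpa [mul_assoc] using this
  · exact M₂.mul_mem (h₂.conj_mem _ hm₂ m₁) (M₂.inv_mem hm₂)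
  · intro h
    apply hab
    have h3 : f m₁ * f m₂ * (f m₁)⁻¹ * (f m₂)⁻¹ = 1 := by simpa using h
    have h4 : f m₁ * f m₂ * (f m₁)⁻¹ = f m₂ := mul_inv_eq_one.mp h3
    exact mul_inv_eq_iff_eq_mul.mp h4

lemma indepN [IsSimpleGroup Q] (hnc : ∃ a b : Q, a * b ≠ b * a) (f : A →* Q)
    (hf : Function.Surjective f) {ι : Type*} (s : Finset ι) (M : ι → Subgroup A)
    (hM : ∀ i, (M i).Normal) (h : ∀ i ∈ s, ∃ m ∈ M i, f m ≠ 1) :
    ∃ m ∈ ⨅ i ∈ s, M i, f m ≠ 1 := by
  classical
  induction s using Finset.induction_on with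
  | empty =>
    obtain ⟨a, b, hab⟩ := hnc
    obtain ⟨m, rfl⟩ := hf a
    refine ⟨m, by simp, ?_⟩
    intro h
    apply hab
    simp [h]
  | insert a s has ih =>
    have ih' := ih (fun i hi => h i (Finset.mem_insert_of_mem hi))
    have := indep2 hnc f hf (M a) (⨅ i ∈ s, M i) (hM a)
      (Subgroup.normal_iInf_normal fun i => Subgroup.normal_iInf_normal fun _ => hM i)
      (h a (Finset.mem_insert_self a s)) ih'
    rw [Finset.iInf_insert]
    exact this

/-- A surjection factors through another one with smaller kernel. -/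
lemma factor (Q' : Type*) [Group Q'] (f : A →* Q) (g : A →* Q') (hf : Function.Surjective f)
    (h : ∀ a, f a = 1 → g a = 1) : ∃ ψ : Q →* Q', ∀ a, g a = ψ (f a) := by
  refine ⟨(f.liftOfSurjective hf) ⟨g, ?_⟩, ?_⟩
  · intro a ha
    exact h a ha
  · intro a
    simp

lemma factor_equiv [Finite Q] (f g : A →* Q) (hf : Function.Surjective f)
    (hg : Function.Surjective g)
    (h : ∀ a, f a = 1 → g a = 1) : ∃ ψ : Q ≃* Q, ∀ a, g a = ψ (f a) := by
  obtain ⟨ψ, hψ⟩ := factor Q f g hf h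
  have hs : Function.Surjective ψ := by
    intro q
    obtain ⟨a, rfl⟩ := hg q
    exact ⟨f a, (hψ a).symm⟩
  have hb : Function.Bijective ψ := ⟨Finite.injective_iff_surjective.mpr hs, hs⟩
  exact ⟨MulEquiv.ofBijective ψ hb, fun a => hψ a⟩

/-- Simultaneous lifting for homomorphisms to a simple group with pairwise incomparable kernels. -/
lemma crt [IsSimpleGroup Q] (hnc : ∃ a b : Q, a * b ≠ b * a) (f : ℕ → (A →* Q))
    (hf : ∀ i, Function.Surjective (f i)) (k : ℕ)
    (hk : ∀ i < k, ∀ j < k, i ≠ j → ∃ a, f i a = 1 ∧ f j a ≠ 1) (t : ℕ → Q)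
    (B : Subgroup A) (hB : B.Normal) (hBk : ∀ i < k, ∃ b ∈ B, f i b ≠ 1) :
    ∃ b ∈ B, ∀ i < k, f i b = t i := by
  induction k generalizing B t with
  | zero => exact ⟨1, B.one_mem, by simp⟩
  | succ k ih =>
    obtain ⟨b, hb, hbt⟩ := exists_mem_eq (f k) (hf k) B hB (hBk k (Nat.lt_succ_self k)) (t k)
    have hker : (f k).ker.Normal := inferInstance
    obtain ⟨b', hb', hbt'⟩ := ih (fun i hi j hj => hk i (Nat.lt_succ_of_lt hi) j
      (Nat.lt_succ_of_lt hj)) (fun i => (f i b)⁻¹ * t i) (B ⊓ (f k).ker)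
      (Subgroup.normal_inf_normal B (f k).ker) (by
        intro i hi
        apply indep2 hnc (f i) (hf i) B (f k).ker hB hker (hBk i (Nat.lt_succ_of_lt hi))
        obtain ⟨a, ha1, ha2⟩ := hk k (Nat.lt_succ_self k) i (Nat.lt_succ_of_lt hi)
          (Nat.ne_of_gt hi)
        exact ⟨a, ha1, ha2⟩)
    refine ⟨b * b', B.mul_mem hb hb'.1, ?_⟩
    intro i hi
    rcases Nat.lt_succ_iff_lt_or_eq.mp hi with h | h
    · rw [map_mul, hbt' i h]
      group
    · subst h
      have : f i b' = 1 := hb'.2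
      rw [map_mul, this, mul_one, hbt]

end Simple

section Orbit

variable {A : Type*} [Group A] {Q : Type*} [Group Q]

/-- the sequence `(f (φ^i g))_i` -/
def seqHom (f : A →* Q) (φ : A ≃* A) : A →* (ℕ → Q) where
  toFun g := fun i => f ((φ ^ i : MulAut A) g)
  map_one' := by ext i; simp
  map_mul' x y := by ext i; simp

lemma seqHom_apply (f : A →* Q) (φ : A ≃* A) (g : A) (i : ℕ) :
    seqHom f φ g i = f ((φ ^ i : MulAut A) g) := rfl

/-- `f ∘ φ^i` -/
def shiftHom (f : A →* Q) (φ : A ≃* A) (i : ℕ) : A →* Q :=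
  f.comp (MulEquiv.toMonoidHom (φ ^ i : MulAut A))

lemma shiftHom_apply (f : A →* Q) (φ : A ≃* A) (g : A) (i : ℕ) :
    shiftHom f φ i g = f ((φ ^ i : MulAut A) g) := rfl

lemma shiftHom_surj (f : A →* Q) (hf : Function.Surjective f) (φ : A ≃* A) (i : ℕ) :
    Function.Surjective (shiftHom f φ i) := by
  intro q
  obtain ⟨a, rfl⟩ := hf q
  obtain ⟨b, rfl⟩ := (φ ^ i : MulAut A).surjective a
  exact ⟨b, rfl⟩

lemma pow_add_apply (φ : A ≃* A) (i j : ℕ) (g : A) :
    (φ ^ (i + j) : MulAut A) g = (φ ^ i : MulAut A) ((φ ^ j : MulAut A) g) := by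
  rw [pow_add]; rfl

lemma exists_period [Finite (A →* Q)] (f : A →* Q) (φ : A ≃* A) :
    ∃ n : ℕ, 0 < n ∧ ∀ g, f ((φ ^ n : MulAut A) g) = f g := by
  obtain ⟨i, j, hij, h⟩ := Finite.exists_ne_map_eq_of_infinite (fun i : ℕ => shiftHom f φ i)
  wlog hlt : i < j generalizing i j with H
  · exact H j i (Ne.symm hij) h.symm (lt_of_le_of_ne (not_lt.mp hlt) (Ne.symm hij))
  refine ⟨j - i, Nat.sub_pos_of_lt hlt, fun g => ?_⟩
  obtain ⟨b, rfl⟩ := (φ ^ i : MulAut A).surjective g
  rw [← pow_add_apply, Nat.sub_add_cancel hlt.le]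
  have := DFunLike.congr_fun h b
  simpa [shiftHom_apply] using this.symm

/-- data for one simple quotient: the least `r` with `ker f ≤ ker (f ∘ φ^r)`. -/
lemma exists_orbit [Finite (A →* Q)] [Finite Q] (f : A →* Q) (hf : Function.Surjective f)
    (φ : A ≃* A) :
    ∃ r : ℕ, 0 < r ∧ (∃ ψ : Q ≃* Q, ∀ g, f ((φ ^ r : MulAut A) g) = ψ (f g)) ∧
      ∀ i < r, ∀ j < r, i ≠ j → ∃ a, shiftHom f φ i a = 1 ∧ shiftHom f φ j a ≠ 1 := by
  classical
  have hex : ∃ r : ℕ, 0 < r ∧ ∀ a, f a = 1 → f ((φ ^ r : MulAut A) a) = 1 := by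
    obtain ⟨n, hn, h⟩ := exists_period f φ
    exact ⟨n, hn, fun a ha => by rw [h a, ha]⟩
  obtain ⟨r, ⟨hr, hr'⟩, hmin⟩ : ∃ r : ℕ, (0 < r ∧ ∀ a, f a = 1 → f ((φ ^ r : MulAut A) a) = 1) ∧
      ∀ m < r, ¬ (0 < m ∧ ∀ a, f a = 1 → f ((φ ^ m : MulAut A) a) = 1) :=
    ⟨Nat.find hex, Nat.find_spec hex, fun m hm => Nat.find_min hex hm⟩
  refine ⟨r, hr, ?_, ?_⟩
  · exact factor_equiv f (shiftHom f φ r) hf (shiftHom_surj f hf φ r) hr'
  · have key : ∀ i j, i < j → j < r → ∃ a, shiftHom f φ i a = 1 ∧ shiftHom f φ j a ≠ 1 := by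
      intro i j hij hj
      have h1 := hmin (j - i) (lt_of_le_of_lt (Nat.sub_le j i) hj)
      push Not at h1
      obtain ⟨a, ha, ha'⟩ := h1 (Nat.sub_pos_of_lt hij)
      obtain ⟨b, rfl⟩ := (φ ^ i : MulAut A).surjective a
      refine ⟨b, ha, ?_⟩
      rw [← pow_add_apply, Nat.sub_add_cancel hij.le] at ha'
      exact ha'
    intro i hi j hj hij
    rcases lt_or_gt_of_ne hij with h | h
    · exact key i j h hj
    · by_contra hcon
      push Not at hcon
      obtain ⟨ψ, hψ⟩ := factor_equiv (shiftHom f φ i) (shiftHom f φ j) (shiftHom_surj f hf φ i)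
        (shiftHom_surj f hf φ j) hcon
      obtain ⟨a, ha, ha'⟩ := key j i h hi
      apply ha'
      have := hψ a
      rw [ha] at this
      exact (map_eq_one_iff ψ ψ.injective).mp this.symm

/-- the lifting property of `seqHom` -/
lemma seq_lift [Finite (A →* Q)] [Finite Q] [IsSimpleGroup Q] (hnc : ∃ a b : Q, a * b ≠ b * a)
    (f : A →* Q) (hf : Function.Surjective f)
    (φ : A ≃* A) (x : A) (B : Subgroup A) (hB : B.Normal)
    (hBk : ∀ i, ∃ b ∈ B, shiftHom f φ i b ≠ 1) :
    ∃ b ∈ B, seqHom f φ b = seqHom f φ x := by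
  obtain ⟨r, hr, ⟨ψ, hψ⟩, hdist⟩ := exists_orbit f hf φ
  obtain ⟨b, hb, hbt⟩ := crt hnc (shiftHom f φ) (shiftHom_surj f hf φ) r hdist
    (seqHom f φ x) B hB (fun i _ => hBk i)
  refine ⟨b, hb, ?_⟩
  funext i
  induction i using Nat.strong_induction_on with
  | _ i ih =>
    rcases lt_or_ge i r with h | h
    · exact hbt i h
    · have h1 := ih (i - r) (Nat.sub_lt (lt_of_lt_of_le hr h) hr)
      rw [seqHom_apply, seqHom_apply] at h1 ⊢
      rw [← Nat.add_sub_cancel' h, pow_add_apply, pow_add_apply, hψ, hψ, h1]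

/-- existence of a nontrivial constant sequence in the image -/
lemma seq_fixed [Finite (A →* Q)] [Finite Q] [IsSimpleGroup Q] (hnc : ∃ a b : Q, a * b ≠ b * a)
    (hfp : ∀ ψ : Q ≃* Q, ∃ x : Q, x ≠ 1 ∧ ψ x = x)
    (f : A →* Q) (hf : Function.Surjective f) (φ : A ≃* A) :
    ∃ g : A, ∃ x : Q, x ≠ 1 ∧ ∀ i, seqHom f φ g i = x := by
  obtain ⟨r, hr, ⟨ψ, hψ⟩, hdist⟩ := exists_orbit f hf φ
  obtain ⟨x, hx1, hx⟩ := hfp ψ
  obtain ⟨b, -, hbt⟩ := crt hnc (shiftHom f φ) (shiftHom_surj f hf φ) r hdist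
    (fun _ => x) ⊤ inferInstance (fun i _ => by
      obtain ⟨b, hb⟩ := shiftHom_surj f hf φ i x
      exact ⟨b, trivial, by rw [hb]; exact hx1⟩)
  refine ⟨b, x, hx1, ?_⟩
  intro i
  induction i using Nat.strong_induction_on with
  | _ i ih =>
    rcases lt_or_ge i r with h | h
    · exact hbt i h
    · have h1 := ih (i - r) (Nat.sub_lt (lt_of_lt_of_le hr h) hr)
      rw [seqHom_apply] at h1 ⊢
      rw [← Nat.add_sub_cancel' h, pow_add_apply, hψ, h1, hx]

lemma seq_finite [Finite (A →* Q)] [Finite Q] (f : A →* Q) (φ : A ≃* A) :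
    (Set.range (seqHom f φ)).Finite := by
  obtain ⟨n, hn, h⟩ := exists_period f φ
  have hper : ∀ (k : ℕ) (i : ℕ) (g : A), seqHom f φ g (i + k * n) = seqHom f φ g i := by
    intro k
    induction k with
    | zero => intro i g; simp
    | succ k ih =>
      intro i g
      have : i + (k + 1) * n = n + (i + k * n) := by ring
      rw [this, seqHom_apply, pow_add_apply, h, ← seqHom_apply, ih]
  let ext : (Fin n → Q) → (ℕ → Q) := fun s i => s ⟨i % n, Nat.mod_lt i hn⟩
  apply (Set.finite_range ext).subset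
  rintro _ ⟨g, rfl⟩
  refine ⟨fun i => seqHom f φ g i, ?_⟩
  funext i
  change seqHom f φ g (i % n) = seqHom f φ g i
  have h1 := hper (i / n) (i % n) g
  rw [mul_comm, Nat.mod_add_div] at h1
  exact h1.symm

/-- there is an element which is not of the form `g φ(g)⁻¹` modulo the kernel of `seqHom`. -/
lemma exists_not_tw [Finite (A →* Q)] [Finite Q] [IsSimpleGroup Q]
    (hnc : ∃ a b : Q, a * b ≠ b * a)
    (hfp : ∀ ψ : Q ≃* Q, ∃ x : Q, x ≠ 1 ∧ ψ x = x)
    (f : A →* Q) (hf : Function.Surjective f) (φ : A ≃* A) :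
    ∃ x : A, ∀ g : A, seqHom f φ x ≠ seqHom f φ (g * (φ g)⁻¹) := by
  by_contra hcon
  push Not at hcon
  have hfin := seq_finite f φ
  let R := Set.range (seqHom f φ)
  have : Finite R := hfin
  let sh : (ℕ → Q) → (ℕ → Q) := fun s i => s (i + 1)
  have hsh : ∀ g, seqHom f φ (φ g) = sh (seqHom f φ g) := by
    intro g
    funext i
    change f ((φ ^ i : MulAut A) (φ g)) = f ((φ ^ (i + 1) : MulAut A) g)
    rw [pow_add_apply, pow_one]
  let θ : (ℕ → Q) → (ℕ → Q) := fun s => s * (sh s)⁻¹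
  have hθ : ∀ g, θ (seqHom f φ g) = seqHom f φ (g * (φ g)⁻¹) := by
    intro g
    rw [map_mul, map_inv, hsh]
  have hmaps : Set.MapsTo θ R R := by
    rintro _ ⟨g, rfl⟩
    exact ⟨_, (hθ g).symm⟩
  let θ' : R → R := hmaps.restrict θ R R
  have hsurj : Function.Surjective θ' := by
    rintro ⟨_, x, rfl⟩
    obtain ⟨g, hg⟩ := hcon x
    refine ⟨⟨seqHom f φ g, g, rfl⟩, ?_⟩
    apply Subtype.ext
    change θ (seqHom f φ g) = seqHom f φ x
    rw [hθ, hg]
  have hinj : Function.Injective θ' := Finite.injective_iff_surjective.mpr hsurj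
  obtain ⟨g, x, hx1, hx⟩ := seq_fixed hnc hfp f hf φ
  have h1 : θ' ⟨seqHom f φ g, g, rfl⟩ = θ' ⟨seqHom f φ 1, 1, rfl⟩ := by
    apply Subtype.ext
    change θ (seqHom f φ g) = θ (seqHom f φ 1)
    have e1 : θ (seqHom f φ 1) = 1 := by
      rw [hθ]; simp
    rw [e1]
    funext i
    change seqHom f φ g i * (seqHom f φ g (i + 1))⁻¹ = 1
    rw [hx, hx]; simp
  have h2 := hinj h1
  have h3 : seqHom f φ g = seqHom f φ 1 := congrArg Subtype.val h2
  apply hx1
  rw [← hx 0, h3]
  simp

end Orbit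

/-- **Abstract criterion.** A group which maps onto finite simple non-abelian groups of
unbounded order, each having no fixed-point-free automorphism, and which has only finitely many
homomorphisms to each finite group, has property `R_∞`. -/
theorem hasRInf_of_quotients {A : Type*} [Group A]
    (hfin : ∀ (Q : Type) [Group Q] [Finite Q], Finite (A →* Q))
    (h : ∀ n : ℕ, ∃ (Q : Type) (_ : Group Q), Finite Q ∧ n < Nat.card Q ∧ IsSimpleGroup Q ∧
      (∃ a b : Q, a * b ≠ b * a) ∧ (∀ ψ : Q ≃* Q, ∃ x : Q, x ≠ 1 ∧ ψ x = x) ∧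
      ∃ f : A →* Q, Function.Surjective f) : HasRInf A := by
  classical
  intro φ
  choose Q iQ hQfin hcard hsimple hnc hfp f hf using h
  -- indices with increasing cardinalities
  let idx : ℕ → ℕ := fun k => Nat.rec 0 (fun _ n => Nat.card (Q n)) k
  have hidx : ∀ k, Nat.card (Q (idx k)) < Nat.card (Q (idx (k + 1))) := fun k =>
    hcard (Nat.card (Q (idx k)))
  have hmono : StrictMono (fun k => Nat.card (Q (idx k))) := strictMono_nat_of_lt_succ hidx
  have hx : ∀ k, ∃ x : A, ∀ g : A,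
      seqHom (f (idx k)) φ x ≠ seqHom (f (idx k)) φ (g * (φ g)⁻¹) := by
    intro k
    have := hQfin (idx k)
    have := hsimple (idx k)
    have := hfin (Q (idx k))
    exact exists_not_tw (hnc _) (hfp _) (f (idx k)) (hf _) φ
  choose x hx using hx
  have hz : ∀ k, ∃ z : A, (∀ j < k, seqHom (f (idx j)) φ z = 1) ∧
      seqHom (f (idx k)) φ z = seqHom (f (idx k)) φ (x k) := by
    intro k
    have := hQfin (idx k)
    have := hsimple (idx k)
    have := hfin (Q (idx k))
    obtain ⟨z, hz, hz'⟩ := seq_lift (hnc _) (f (idx k)) (hf _) φ (x k)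
      (⨅ j ∈ Finset.range k, (seqHom (f (idx j)) φ).ker)
      (Subgroup.normal_iInf_normal fun i => Subgroup.normal_iInf_normal fun _ => inferInstance)
      (by
        intro i
        apply indepN (hnc _) (shiftHom (f (idx k)) φ i) (shiftHom_surj _ (hf _) φ i)
        · intro j; infer_instance
        · intro j hj
          have := hQfin (idx j)
          have := hfin (Q (idx j))
          obtain ⟨n, hn, hper⟩ := exists_period (f (idx j)) φ
          have h1 := indepN (hnc (idx k)) (shiftHom (f (idx k)) φ i) (shiftHom_surj _ (hf _) φ i)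
            (Finset.range n) (fun l => (shiftHom (f (idx j)) φ l).ker)
            (fun l => inferInstance) (by
              intro l hl
              by_contra hcon
              push Not at hcon
              obtain ⟨ψ, hψ⟩ := factor (Q (idx k)) (shiftHom (f (idx j)) φ l)
                (shiftHom (f (idx k)) φ i) (shiftHom_surj _ (hf _) φ l)
                (fun a ha => hcon a ha)
              have hs : Function.Surjective ψ := by
                intro q
                obtain ⟨a, rfl⟩ := shiftHom_surj _ (hf (idx k)) φ i q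
                exact ⟨_, (hψ a).symm⟩
              have h2 := Nat.card_le_card_of_surjective ψ hs
              have h3 := hmono (Finset.mem_range.mp hj)
              exact absurd h2 (not_le.mpr h3))
          obtain ⟨m, hm, hm'⟩ := h1
          refine ⟨m, ?_, hm'⟩
          rw [MonoidHom.mem_ker]
          simp only [Subgroup.mem_iInf, Finset.mem_range, MonoidHom.mem_ker] at hm
          funext l
          have hper' : ∀ (c : ℕ) (l : ℕ) (g : A),
              seqHom (f (idx j)) φ g (l + c * n) = seqHom (f (idx j)) φ g l := by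
            intro c
            induction c with
            | zero => intro i g; simp
            | succ c ih =>
              intro i g
              have : i + (c + 1) * n = n + (i + c * n) := by ring
              rw [this, seqHom_apply, pow_add_apply, hper, ← seqHom_apply, ih]
          have h4 := hper' (l / n) (l % n) m
          rw [mul_comm, Nat.mod_add_div] at h4
          rw [h4]
          exact hm _ (Nat.mod_lt l hn))
    refine ⟨z, ?_, hz'⟩
    intro j hj
    simp only [Subgroup.mem_iInf, Finset.mem_range, MonoidHom.mem_ker] at hz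
    exact hz j hj
  choose z hz1 hz2 using hz
  apply Infinite.of_injective (fun k : ℕ => (Quotient.mk (twSetoid φ) (z k)))
  -- key
  have key : ∀ i k, i < k → ¬ TwConj φ (z i) (z k) := by
    rintro i k hik ⟨g, hg⟩
    apply hx i g⁻¹
    have h1 := hz1 k i hik
    rw [← hz2 i]
    have h2 : z i = g⁻¹ * z k * φ g := by rw [hg]; group
    rw [h2, map_mul, map_mul, h1]
    simp
  intro i k hik
  have hik' : TwConj φ (z i) (z k) := Quotient.exact hik
  rcases lt_trichotomy i k with h | h | h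
  · exact absurd hik' (key i k h)
  · exact h
  · exact absurd ((twSetoid φ).symm hik') (key k i h)

end Pool.Agent.H345.RInf
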