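import Pool.Agent.H345.RInfFP

/-!
No automorphism of the simple quotient is fixed-point-free.
-/

namespace Pool.Agent.H345.RInf

lemma eq_one_of_odd_pow {G : Type*} [Group G] (c : G) (n : ℕ) (hn : Odd n) (h2 : c ^ 2 = 1)
    (h : c ^ n = 1) : c = 1 := by
  obtain ⟨k, rfl⟩ := hn
  rw [pow_add, pow_mul, h2, one_pow, one_mul, pow_one] at h
  exact h

namespace Symp

section General

variable {F V : Type*} [Field F] [AddCommGroup V] [Module F V] (B : Symp F V)

/-- the subgroup stabilising `v`, acting trivially on `v^⊥ / ⟨v⟩` -/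
def R (v : V) : Subgroup B.G where
  carrier := {g | (g : V ≃ₗ[F] V) v = v ∧
    ∀ w, B.ω w v = 0 → ∃ a : F, (g : V ≃ₗ[F] V) w = w + a • v}
  mul_mem' := by
    rintro g h ⟨hg1, hg2⟩ ⟨hh1, hh2⟩
    refine ⟨by rw [mul_apply, hh1, hg1], fun w hw => ?_⟩
    obtain ⟨a, ha⟩ := hg2 w hw
    obtain ⟨b, hb⟩ := hh2 w hw
    refine ⟨a + b, ?_⟩
    rw [mul_apply, hb, map_add, map_smul, hg1, ha]
    module
  one_mem' := ⟨rfl, fun w _ => ⟨0, by simp⟩⟩
  inv_mem' := by
    rintro g ⟨hg1, hg2⟩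
    have hv : ((g⁻¹ : B.G) : V ≃ₗ[F] V) v = v := by
      conv_lhs => rw [← hg1]
      exact B.inv_apply_self g v
    refine ⟨hv, fun w hw => ?_⟩
    obtain ⟨a, ha⟩ := hg2 w hw
    refine ⟨-a, ?_⟩
    have h1 : w = ((g⁻¹ : B.G) : V ≃ₗ[F] V) (w + a • v) := by
      rw [← ha]; exact (B.inv_apply_self g w).symm
    rw [map_add, map_smul, hv] at h1
    rw [eq_comm, neg_smul, ← sub_eq_add_neg, sub_eq_iff_eq_add]
    exact h1

lemma mem_R (v : V) (g : B.G) : g ∈ B.R v ↔ ((g : V ≃ₗ[F] V) v = v ∧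
    ∀ w, B.ω w v = 0 → ∃ a : F, (g : V ≃ₗ[F] V) w = w + a • v) := Iff.rfl

lemma T_mem_R (v : V) (l : F) : B.T v l ∈ B.R v := by
  refine ⟨by rw [T_apply, B.alt]; simp, fun w hw => ⟨0, by rw [T_apply, hw]; simp⟩⟩

/-- the element `x ↦ x + ω(x,v) w + ω(x,w) v` -/
def E (v w : V) : B.G := B.T (v + w) 1 * B.T v (-1) * B.T w (-1)

lemma E_apply {v w : V} (h : B.ω w v = 0) (x : V) :
    (B.E v w : V ≃ₗ[F] V) x = x + B.ω x v • w + B.ω x w • v := by
  have h' : B.ω v w = 0 := by rw [B.skew, h, neg_zero]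
  rw [E, mul_apply, mul_apply, T_apply B w, T_apply B v, T_apply B (v + w)]
  simp only [map_add, map_smul, LinearMap.add_apply, LinearMap.smul_apply, smul_eq_mul, B.alt, h,
    h']
  module

lemma E_mem_R {v w : V} (h : B.ω w v = 0) : B.E v w ∈ B.R v := by
  have h' : B.ω v w = 0 := by rw [B.skew, h, neg_zero]
  refine ⟨by rw [B.E_apply h, B.alt, h']; simp, fun x hx => ⟨B.ω x w, ?_⟩⟩
  rw [B.E_apply h, hx]; simp

/-- elements commuting with `R v` are scalars times transvections -/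
lemma comm_R (h2 : (2 : F) ≠ 0) {v : V} (hv : v ≠ 0) (z : B.G)
    (hz : ∀ u ∈ B.R v, z * u * z⁻¹ = u) :
    ∃ ε l : F, ∀ x, (z : V ≃ₗ[F] V) x = ε • (B.T v l : V ≃ₗ[F] V) x := by
  have h1 := hz _ (B.T_mem_R v 1)
  rw [conj_T] at h1
  obtain ⟨ε, hε, hzv⟩ := B.tv_eq hv (congrArg Subtype.val h1)
  have hε0 : ε ≠ 0 := by
    rintro rfl
    norm_num at hε
  obtain ⟨y, hy⟩ := B.exists_form_ne hv
  obtain ⟨x₀, hx₀⟩ : ∃ x₀, B.ω x₀ v = 1 := by
    refine ⟨-(B.ω v y)⁻¹ • y, ?_⟩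
    rw [map_smul, LinearMap.smul_apply, smul_eq_mul, B.skew y v, neg_mul_neg,
      inv_mul_cancel₀ hy]
  have hperp : ∀ w, B.ω w v = 0 → ε • (z : V ≃ₗ[F] V) w = w := by
    intro w hw
    have hu := hz _ (B.E_mem_R hw)
    have hu2 : ∀ x, (z : V ≃ₗ[F] V) ((B.E v w : V ≃ₗ[F] V) x) =
        (B.E v w : V ≃ₗ[F] V) ((z : V ≃ₗ[F] V) x) := by
      intro x
      have e1 : z * B.E v w = B.E v w * z := by
        conv_rhs => rw [← hu]
        group
      have := congrArg (fun k : B.G => (k : V ≃ₗ[F] V) x) e1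
      simpa [mul_apply] using this
    have h3 : ∀ x, B.ω x v • (ε • (z : V ≃ₗ[F] V) w - w) +
        B.ω x (ε • (z : V ≃ₗ[F] V) w - w) • v = 0 := by
      intro x
      obtain ⟨x, rfl⟩ := (z : V ≃ₗ[F] V).surjective x
      have h4 := hu2 x
      rw [B.E_apply hw, B.E_apply hw, map_add, map_add, map_smul, map_smul, hzv] at h4
      have h5 : B.ω ((z : V ≃ₗ[F] V) x) v = ε * B.ω x v := by
        have : B.ω ((z : V ≃ₗ[F] V) x) v = ε * B.ω ((z : V ≃ₗ[F] V) x) ((z : V ≃ₗ[F] V) v) := by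
          rw [hzv, map_smul, smul_eq_mul, ← mul_assoc, ← pow_two, hε, one_mul]
        rw [this, B.form]
      have h6 : B.ω ((z : V ≃ₗ[F] V) x) ((z : V ≃ₗ[F] V) w) = B.ω x w := B.form z x w
      rw [map_sub, map_smul, h6, h5]
      rw [h5] at h4
      have h7 : B.ω x v • (z : V ≃ₗ[F] V) w + B.ω x w • ε • v -
          ((ε * B.ω x v) • w + B.ω ((z : V ≃ₗ[F] V) x) w • v) = 0 := by
        rw [sub_eq_zero]
        have := h4
        rw [add_assoc, add_assoc] at this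
        exact add_left_cancel this
      have h8 : (ε * B.ω x v) • (ε • (z : V ≃ₗ[F] V) w - w) +
          (ε • B.ω x w - B.ω ((z : V ≃ₗ[F] V) x) w) • v =
          B.ω x v • (z : V ≃ₗ[F] V) w + B.ω x w • ε • v -
          ((ε * B.ω x v) • w + B.ω ((z : V ≃ₗ[F] V) x) w • v) +
          (ε ^ 2 - 1) • (B.ω x v • (z : V ≃ₗ[F] V) w) := by
        simp only [smul_eq_mul]
        module
      rw [h8, h7, hε, sub_self, zero_smul, add_zero]
    set d := ε • (z : V ≃ₗ[F] V) w - w with hd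
    have h4 := h3 x₀
    rw [hx₀, one_smul] at h4
    have h5 : d = (-B.ω x₀ d) • v := by rw [neg_smul]; exact eq_neg_of_add_eq_zero_left h4
    have h6 : B.ω x₀ d = -B.ω x₀ d := by
      conv_lhs => rw [h5]
      rw [map_smul, hx₀, smul_eq_mul, mul_one]
    have h7 : B.ω x₀ d = 0 := by
      have : 2 * B.ω x₀ d = 0 := by linear_combination h6
      rcases mul_eq_zero.mp this with h | h
      · exact absurd h h2
      · exact h
    rw [h7, neg_zero, zero_smul] at h5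
    exact sub_eq_zero.mp h5
  -- the vector `D x₀`
  set y₀ := ε • (z : V ≃ₗ[F] V) x₀ - x₀ with hy₀
  have hy₀perp : ∀ w, B.ω w v = 0 → B.ω y₀ w = 0 := by
    intro w hw
    have h3 : B.ω y₀ w = ε * B.ω ((z : V ≃ₗ[F] V) x₀) w - B.ω x₀ w := by
      rw [hy₀, map_sub, LinearMap.sub_apply, map_smul, LinearMap.smul_apply, smul_eq_mul]
    rw [h3]
    conv_lhs => rw [← hperp w hw]
    rw [map_smul, B.form, hperp w hw]
    rw [smul_eq_mul, ← mul_assoc, ← pow_two, hε, one_mul, sub_self]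
  have hy₀v : y₀ = (-B.ω y₀ x₀) • v := by
    have : y₀ + B.ω y₀ x₀ • v = 0 := by
      apply B.nondeg
      intro x
      have e1 : x = B.ω x v • x₀ + (x - B.ω x v • x₀) := by abel
      have hw : B.ω (x - B.ω x v • x₀) v = 0 := by
        rw [map_sub, LinearMap.sub_apply, map_smul, LinearMap.smul_apply, hx₀]; simp
      have hw' : B.ω v (x - B.ω x v • x₀) = 0 := by rw [B.skew, hw, neg_zero]
      rw [e1, map_add, map_add, LinearMap.add_apply, LinearMap.add_apply, hy₀perp _ hw, map_smul,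
        map_smul (B.ω _) _ x₀, map_smul, LinearMap.smul_apply, LinearMap.smul_apply, hw',
        B.skew v x₀, hx₀]
      simp
    rw [neg_smul]; exact eq_neg_of_add_eq_zero_left this
  refine ⟨ε, -B.ω y₀ x₀, fun x => ?_⟩
  have hw : B.ω (x - B.ω x v • x₀) v = 0 := by
    rw [map_sub, LinearMap.sub_apply, map_smul, LinearMap.smul_apply, hx₀]; simp
  have h3 := hperp _ hw
  have h4 : ε • (z : V ≃ₗ[F] V) x = x + (-B.ω y₀ x₀ * B.ω x v) • v := by
    have e1 : ε • (z : V ≃ₗ[F] V) x = ε • (z : V ≃ₗ[F] V) (x - B.ω x v • x₀) +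
        B.ω x v • (ε • (z : V ≃ₗ[F] V) x₀) := by
      rw [map_sub, map_smul]; module
    have e2 : ε • (z : V ≃ₗ[F] V) x₀ = x₀ + y₀ := by rw [hy₀]; abel
    rw [e1, h3, e2]
    conv_lhs => rw [hy₀v]
    module
  rw [T_apply, ← h4, smul_smul, ← pow_two, hε, one_smul]

end General

section Prime

variable {p : ℕ} [Fact p.Prime] {V : Type*} [AddCommGroup V] [Module (ZMod p) V]
  (B : Symp (ZMod p) V)

lemma R_pow (hp : 3 ≤ p) (v : V) (g : B.G) (hg : g ∈ B.R v) : g ^ p = 1 := by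
  obtain ⟨hg1, hg2⟩ := hg
  have key : ∀ x, ∃ d : V, ∃ a : ZMod p, ∀ k : ℕ,
      ((g ^ k : B.G) : V ≃ₗ[ZMod p] V) x = x + (k : ZMod p) • d +
        ((k.choose 2 : ℕ) : ZMod p) • (a • v) := by
    intro x
    set d := (g : V ≃ₗ[ZMod p] V) x - x with hd
    have hdv : B.ω d v = 0 := by
      rw [hd, map_sub, LinearMap.sub_apply]
      have : B.ω ((g : V ≃ₗ[ZMod p] V) x) v = B.ω x v := by
        conv_lhs => rw [← hg1]
        exact B.form g x v
      rw [this, sub_self]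
    obtain ⟨a, ha⟩ := hg2 d hdv
    refine ⟨d, a, fun k => ?_⟩
    induction k with
    | zero => simp
    | succ k ih =>
      rw [pow_succ', mul_apply, ih, map_add, map_add, map_smul, map_smul, map_smul, hg1, ha]
      have e1 : (g : V ≃ₗ[ZMod p] V) x = x + d := by rw [hd]; abel
      rw [e1, Nat.choose_succ_succ, Nat.choose_one_right]
      push_cast
      module
  apply B.G_ext
  intro x
  obtain ⟨d, a, h⟩ := key x
  rw [h p]
  have h1 : ((p : ℕ) : ZMod p) = 0 := ZMod.natCast_self p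
  have h2 : ((p.choose 2 : ℕ) : ZMod p) = 0 := by
    rw [ZMod.natCast_eq_zero_iff]
    exact (Fact.out : p.Prime).dvd_choose_self (by norm_num) (by omega)
  rw [h1, h2]
  simp

lemma two_ne (hp : 3 ≤ p) : (2 : ZMod p) ≠ 0 := by
  intro h
  have : ((2 : ℕ) : ZMod p) = 0 := by exact_mod_cast h
  rw [ZMod.natCast_eq_zero_iff] at this
  have := Nat.le_of_dvd (by norm_num) this
  omega

lemma three_ne (hp : 5 ≤ p) : (3 : ZMod p) ≠ 0 := by
  intro h
  have : ((3 : ℕ) : ZMod p) = 0 := by exact_mod_cast h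
  rw [ZMod.natCast_eq_zero_iff] at this
  have := Nat.le_of_dvd (by norm_num) this
  omega

lemma fifteen_ne (hp : 7 ≤ p) : (15 : ZMod p) ≠ 0 := by
  intro h
  have : ((15 : ℕ) : ZMod p) = 0 := by exact_mod_cast h
  rw [ZMod.natCast_eq_zero_iff] at this
  have h1 : p ∣ 3 * 5 := by simpa using this
  rcases ((Fact.out : p.Prime).dvd_mul).mp h1 with h | h
  · have := Nat.le_of_dvd (by norm_num) h
    omega
  · have := Nat.le_of_dvd (by norm_num) h
    omega

variable [Nontrivial V]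

/-- elements of `Q` commuting with the image of `R v` are images of transvections -/
lemma comm_R_Q (hp : 3 ≤ p) {v : V} (hv : v ≠ 0) (z : B.Q)
    (hz : ∀ u ∈ B.R v, z * B.π u * z⁻¹ = B.π u) : ∃ l, z = B.t v l := by
  obtain ⟨z, rfl⟩ := B.π_surj z
  have hz' : ∀ u ∈ B.R v, z * u * z⁻¹ = u := by
    intro u hu
    have h1 : z * u * z⁻¹ * u⁻¹ ∈ Subgroup.center B.G := by
      rw [← π_eq_one]
      rw [map_mul, map_mul, map_mul, map_inv, map_inv, hz u hu, mul_inv_cancel]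
    set c := z * u * z⁻¹ * u⁻¹ with hc
    obtain ⟨ε, hε, hcε⟩ := B.center_scalar c h1
    have hc2 : c ^ 2 = 1 := by
      apply B.G_ext
      intro x
      rw [pow_two, mul_apply, hcε, hcε, smul_smul, ← pow_two, hε, one_smul]; rfl
    have hcu : z * u * z⁻¹ = c * u := by rw [hc]; group
    have hcp : c ^ p = 1 := by
      have hcomm : Commute c u := by
        rw [Subgroup.mem_center_iff] at h1
        exact (h1 u).symm
      have h3 : (c * u) ^ p = 1 := by
        rw [← hcu, conj_pow, B.R_pow hp v u hu]; group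
      rwa [hcomm.mul_pow, B.R_pow hp v u hu, mul_one] at h3
    have hodd : Odd p := (Fact.out : p.Prime).odd_of_ne_two (by omega)
    have hc1 : c = 1 := eq_one_of_odd_pow c p hodd hc2 hcp
    rw [hcu, hc1, one_mul]
  obtain ⟨ε, l, h⟩ := B.comm_R (two_ne hp) hv z hz'
  refine ⟨l, ?_⟩
  have h1 : z * (B.T v l)⁻¹ ∈ Subgroup.center B.G := by
    apply B.scalar_mem_center _ ε
    intro x
    rw [mul_apply, h, apply_inv_self]
  rw [← π_eq_one, map_mul, map_inv] at h1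
  exact mul_inv_eq_one.mp h1

variable [Finite V]

instance : Finite (V ≃ₗ[ZMod p] V) :=
  Finite.of_injective (fun g : V ≃ₗ[ZMod p] V => (g : V → V)) DFunLike.coe_injective

instance : Finite B.G := inferInstance

instance : Finite B.Q := inferInstance

/-- every Sylow `p`-subgroup of `Q` contains the image of some `R v` -/
lemma sylow_R (hp : 3 ≤ p) (P : Sylow p B.Q) : ∃ v : V, v ≠ 0 ∧ ∀ u ∈ B.R v, B.π u ∈ P := by
  obtain ⟨e, he⟩ := exists_ne (0 : V)
  have hpg : IsPGroup p ((B.R e).map B.π) := by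
    rintro ⟨_, u, hu, rfl⟩
    refine ⟨1, ?_⟩
    apply Subtype.ext
    rw [pow_one]
    change B.π u ^ p = 1
    rw [← map_pow, B.R_pow hp e u hu, map_one]
  obtain ⟨P₀, hP₀⟩ := hpg.exists_le_sylow
  obtain ⟨k, hk⟩ := MulAction.exists_smul_eq B.Q P₀ P
  obtain ⟨k, rfl⟩ := B.π_surj k
  refine ⟨(k : V ≃ₗ[ZMod p] V) e, ?_, ?_⟩
  · intro h
    apply he
    exact (k : V ≃ₗ[ZMod p] V).map_eq_zero_iff.mp h
  · intro u hu
    have h1 : k⁻¹ * u * k ∈ B.R e := by
      obtain ⟨hu1, hu2⟩ := hu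
      refine ⟨?_, ?_⟩
      · rw [mul_apply, mul_apply, hu1, inv_apply_self]
      · intro w hw
        obtain ⟨a, ha⟩ := hu2 ((k : V ≃ₗ[ZMod p] V) w) (by rw [B.form, hw])
        refine ⟨a, ?_⟩
        rw [mul_apply, mul_apply, ha, map_add, map_smul, inv_apply_self, inv_apply_self]
    have h2 : B.π (k⁻¹ * u * k) ∈ (P₀ : Subgroup B.Q) := hP₀ ⟨_, h1, rfl⟩
    rw [← hk]
    change B.π u ∈ ((B.π k • P₀ : Sylow p B.Q) : Subgroup B.Q)
    rw [Sylow.coe_subgroup_smul, Subgroup.mem_pointwise_smul_iff_inv_smul_mem]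
    have e1 : (MulAut.conj (B.π k))⁻¹ • B.π u = B.π (k⁻¹ * u * k) := by
      rw [← map_inv, MulAut.smul_def, MulAut.conj_apply]
      simp [mul_assoc]
    rwa [e1]

/-- the centre of a Sylow `p`-subgroup of `Q` consists of transvections -/
lemma sylow_center (hp : 3 ≤ p) (P : Sylow p B.Q) {v : V} (hv : v ≠ 0)
    (hP : ∀ u ∈ B.R v, B.π u ∈ P) (c : B.Q) :
    (c ∈ P ∧ ∀ x ∈ P, c * x = x * c) ↔ ∃ l, c = B.t v l := by
  have hfwd : ∀ c : B.Q, (∀ x ∈ P, c * x = x * c) → ∃ l, c = B.t v l := by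
    intro c hc
    apply B.comm_R_Q hp hv
    intro u hu
    rw [hc _ (hP u hu), mul_assoc, mul_inv_cancel, mul_one]
  refine ⟨fun h => hfwd c h.2, ?_⟩
  rintro ⟨l, rfl⟩
  refine ⟨hP _ (B.T_mem_R v l), ?_⟩
  -- the centre of `P` is nontrivial
  have hnt : Nontrivial (P : Subgroup B.Q) := by
    refine ⟨⟨B.t v 1, hP _ (B.T_mem_R v 1)⟩, 1, ?_⟩
    intro h
    exact one_ne_zero (B.t_eq_one hv (congrArg Subtype.val h))
  have hcn : Nontrivial (Subgroup.center (P : Subgroup B.Q)) := P.2.center_nontrivial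
  obtain ⟨⟨⟨z, hzP⟩, hzc⟩, hz1⟩ := exists_ne (1 : Subgroup.center (P : Subgroup B.Q))
  have hzcomm : ∀ x ∈ P, z * x = x * z := by
    intro x hx
    rw [Subgroup.mem_center_iff] at hzc
    have := hzc ⟨x, hx⟩
    exact (congrArg Subtype.val this).symm
  obtain ⟨m, rfl⟩ := hfwd z hzcomm
  have hm : m ≠ 0 := by
    rintro rfl
    apply hz1
    apply Subtype.ext
    apply Subtype.ext
    exact B.t_zero v
  have : B.t v l = (B.t v m) ^ (l / m).val := by
    rw [t_pow, ZMod.natCast_val, ZMod.cast_id', id, div_mul_cancel₀ l hm]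
  rw [this]
  intro x hx
  exact (Commute.pow_left (hzcomm x hx) _)

/-- **No fixed-point-free automorphism.** -/
theorem Q_fixed (hp : 5 ≤ p) (ψ : B.Q ≃* B.Q) : ∃ x : B.Q, x ≠ 1 ∧ ψ x = x := by
  by_contra hcon
  push Not at hcon
  have hfpf : ∀ x, ψ x = x → x = 1 := by
    intro x hx
    by_contra h
    exact hcon x h hx
  have hp3 : 3 ≤ p := by omega
  -- Step 1
  have inj : Function.Injective (fun k : B.Q => k⁻¹ * ψ k) := by
    intro k l hkl
    have hkl' : k⁻¹ * ψ k = l⁻¹ * ψ l := hkl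
    have h1 : ψ (l * k⁻¹) = l * k⁻¹ := by
      rw [map_mul, map_inv]
      have h2 : ψ k = k * (l⁻¹ * ψ l) := by rw [← hkl']; group
      rw [h2]; group
    have h3 := hfpf _ h1
    exact (mul_inv_eq_one.mp h3).symm
  have surj : Function.Surjective (fun k : B.Q => k⁻¹ * ψ k) :=
    Finite.injective_iff_surjective.mp inj
  -- Step 2
  obtain ⟨P₀⟩ : Nonempty (Sylow p B.Q) := inferInstance
  obtain ⟨g, hg⟩ := MulAction.exists_smul_eq B.Q P₀ ((ψ : MulAut B.Q) • P₀)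
  have hstar : ∀ y, y ∈ P₀ ↔ g⁻¹ * ψ y * g ∈ P₀ := by
    intro y
    have h1 : ψ y ∈ ((g • P₀ : Sylow p B.Q) : Subgroup B.Q) ↔
        ψ y ∈ (((ψ : MulAut B.Q) • P₀ : Sylow p B.Q) : Subgroup B.Q) := by rw [hg]
    rw [Sylow.coe_subgroup_smul, Sylow.pointwise_smul_def,
      Subgroup.mem_pointwise_smul_iff_inv_smul_mem,
      Subgroup.mem_pointwise_smul_iff_inv_smul_mem] at h1
    have e1 : (MulAut.conj g)⁻¹ • ψ y = g⁻¹ * ψ y * g := by
      rw [← map_inv, MulAut.smul_def, MulAut.conj_apply]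
      simp
    have e2 : (ψ : MulAut B.Q)⁻¹ • ψ y = y := by
      rw [MulAut.smul_def]
      exact ψ.symm_apply_apply y
    rw [e1, e2] at h1
    exact h1.symm
  -- Step 3
  obtain ⟨k, hk⟩ := surj g⁻¹
  have hk' : ψ k = k * g⁻¹ := by
    have : k⁻¹ * ψ k = g⁻¹ := hk
    rw [← this]; group
  let P : Sylow p B.Q := k • P₀
  have hmemP : ∀ x, x ∈ P ↔ k⁻¹ * x * k ∈ P₀ := by
    intro x
    change x ∈ ((k • P₀ : Sylow p B.Q) : Subgroup B.Q) ↔ _
    rw [Sylow.coe_subgroup_smul, Subgroup.mem_pointwise_smul_iff_inv_smul_mem]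
    have e1 : (MulAut.conj k)⁻¹ • x = k⁻¹ * x * k := by
      rw [← map_inv, MulAut.smul_def, MulAut.conj_apply]
      simp
    rw [e1]; rfl
  have hPψ : ∀ x, x ∈ P ↔ ψ x ∈ P := by
    intro x
    rw [hmemP, hmemP, hstar, map_mul, map_mul, map_inv, hk']
    have e1 : g⁻¹ * ((k * g⁻¹)⁻¹ * ψ x * (k * g⁻¹)) * g = k⁻¹ * ψ x * k := by group
    rw [e1]
  obtain ⟨v, hv, hPv⟩ := B.sylow_R hp3 P
  have hchar := B.sylow_center hp3 P hv hPv
  -- Step 4
  let C : Set B.Q := {c | ∃ l, c = B.t v l}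
  have hCψ : ∀ c, c ∈ C ↔ ψ c ∈ C := by
    intro c
    change (∃ l, c = B.t v l) ↔ ∃ l, ψ c = B.t v l
    rw [← hchar, ← hchar, ← hPψ]
    constructor
    · rintro ⟨h1, h3⟩
      refine ⟨h1, fun x hx => ?_⟩
      obtain ⟨y, rfl⟩ := ψ.surjective x
      rw [← map_mul, ← map_mul, h3 y ((hPψ y).mpr hx)]
    · rintro ⟨h1, h3⟩
      refine ⟨h1, fun x hx => ?_⟩
      have := h3 (ψ x) ((hPψ x).mp hx)
      rw [← map_mul, ← map_mul] at this
      exact ψ.injective this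
  let N : Subgroup B.Q := Subgroup.normalizer C
  have hN : ∀ n, n ∈ N ↔ ∀ c, c ∈ C ↔ n * c * n⁻¹ ∈ C := fun n => Iff.rfl
  have hNψ : ∀ n, n ∈ N → ψ n ∈ N := by
    intro n hn
    rw [hN] at hn ⊢
    intro c
    obtain ⟨c, rfl⟩ := ψ.surjective c
    rw [← hCψ, ← map_inv, ← map_mul, ← map_mul, ← hCψ]
    exact hn c
  let θ : N → N := fun n => ⟨(n : B.Q)⁻¹ * ψ n, N.mul_mem (N.inv_mem n.2) (hNψ _ n.2)⟩
  have θinj : Function.Injective θ := by
    intro a b hab
    exact Subtype.ext (inj (congrArg Subtype.val hab))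
  have θsurj : Function.Surjective θ := Finite.injective_iff_surjective.mp θinj
  have hcard : Fintype.card (ZMod p) = p := ZMod.card p
  obtain ⟨h, hh⟩ := B.exists_double (by rw [hcard]; exact hp3) (two_ne hp3) hv
  have hhN : B.π h ∈ N := by
    rw [hN]
    intro c
    constructor
    · rintro ⟨l, rfl⟩
      exact ⟨_, B.conj_double hh l⟩
    · rintro ⟨l, hl⟩
      refine ⟨4⁻¹ * l, ?_⟩
      have h4 : (4 : ZMod p) ≠ 0 := by
        have : (4 : ZMod p) = 2 * 2 := by norm_num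
        rw [this]
        exact mul_ne_zero (two_ne hp3) (two_ne hp3)
      have h5 := B.conj_double hh (4⁻¹ * l)
      rw [← mul_assoc, mul_inv_cancel₀ h4, one_mul, ← hl] at h5
      have h6 : B.π h * B.t v (4⁻¹ * l) = B.π h * c := mul_right_cancel h5
      exact (mul_left_cancel h6).symm
  obtain ⟨⟨n, hnN⟩, hn⟩ := θsurj ⟨B.π h, hhN⟩
  have hn' : ψ n = n * B.π h := by
    have : n⁻¹ * ψ n = B.π h := congrArg Subtype.val hn
    rw [← this]; group
  -- Step 5
  have hψt : ∃ a : ZMod p, a ≠ 0 ∧ ∀ l, ψ (B.t v l) = B.t v (a * l) := by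
    obtain ⟨a, ha⟩ := (hCψ (B.t v 1)).mp ⟨1, rfl⟩
    refine ⟨a, ?_, ?_⟩
    · rintro rfl
      rw [t_zero] at ha
      exact one_ne_zero (B.t_eq_one hv ((map_eq_one_iff ψ ψ.injective).mp ha))
    · intro l
      have : B.t v l = (B.t v 1) ^ l.val := by
        rw [t_pow, ZMod.natCast_val, ZMod.cast_id', id, mul_one]
      rw [this, map_pow, ha, t_pow, ZMod.natCast_val, ZMod.cast_id', id, mul_comm]
  have hnt : ∃ b : ZMod p, b ≠ 0 ∧ ∀ l, n * B.t v l * n⁻¹ = B.t v (b * l) := by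
    obtain ⟨b, hb⟩ := ((hN n).mp hnN (B.t v 1)).mp ⟨1, rfl⟩
    refine ⟨b, ?_, ?_⟩
    · rintro rfl
      rw [t_zero] at hb
      have h5 : n * B.t v 1 = n * 1 := by rw [mul_one]; exact mul_inv_eq_one.mp hb
      exact one_ne_zero (B.t_eq_one hv (mul_left_cancel h5))
    · intro l
      have : B.t v l = (B.t v 1) ^ l.val := by
        rw [t_pow, ZMod.natCast_val, ZMod.cast_id', id, mul_one]
      rw [this, ← conj_pow, hb, t_pow, ZMod.natCast_val, ZMod.cast_id', id, mul_comm]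
  obtain ⟨a, ha0, ha⟩ := hψt
  obtain ⟨b, hb0, hb⟩ := hnt
  have h1 : ψ (n * B.t v 1 * n⁻¹) = B.t v (a * b) := by rw [hb, mul_one, ha]
  have h2 : ψ (n * B.t v 1 * n⁻¹) = B.t v (b * (4 * a)) := by
    rw [map_mul, map_mul, map_inv, hn', ha, mul_one]
    have e1 : n * B.π h * B.t v a * (n * B.π h)⁻¹ =
        n * (B.π h * B.t v a * (B.π h)⁻¹) * n⁻¹ := by group
    rw [e1, B.conj_double hh, hb]
  rw [h1] at h2
  have h3 := B.t_inj hv h2
  have h4 : 3 * (a * b) = 0 := by linear_combination -h3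
  rcases mul_eq_zero.mp h4 with h | h
  · exact three_ne hp h
  · exact mul_ne_zero ha0 hb0 h

end Prime

end Symp

end Pool.Agent.H345.RInf
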