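import Mathlib

/-!
Definitions for the `R_∞` classification of Artin groups.
-/

namespace Pool.Agent.H345.RInf

/-- `x` and `y` are `φ`-twisted conjugate: `y = g x φ(g)⁻¹` for some `g`. -/
def TwConj {G : Type*} [Group G] (φ : G ≃* G) (x y : G) : Prop :=
  ∃ g : G, y = g * x * (φ g)⁻¹

/-- The equivalence relation of `φ`-twisted conjugacy. -/
def twSetoid {G : Type*} [Group G] (φ : G ≃* G) : Setoid G where
  r := TwConj φ
  iseqv := by
    refine ⟨fun x => ⟨1, by simp⟩, ?_, ?_⟩
    · rintro x y ⟨g, hg⟩
      refine ⟨g⁻¹, ?_⟩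
      rw [hg, map_inv]
      group
    · rintro x y z ⟨g, hg⟩ ⟨h, hh⟩
      refine ⟨h * g, ?_⟩
      rw [hh, hg, map_mul]
      group

/-- The group `G` has property `R_∞`: for every automorphism `φ` the set of
`φ`-twisted conjugacy classes is infinite. -/
def HasRInf (G : Type*) [Group G] : Prop :=
  ∀ φ : G ≃* G, Infinite (Quotient (twSetoid φ))

/-- the alternating word `x y x y ⋯` with `n` letters -/
def altWord {G : Type*} [Monoid G] : ℕ → G → G → G
  | 0, _, _ => 1
  | n + 1, x, y => x * altWord n y x

/-- The defining relators of the Artin group of `M`: for `s ≠ t` with label `m = M s t` finite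
(Mathlib encodes the label `∞` by `0`), the relator of `s t s ⋯ = t s t ⋯`, both sides alternating
words of length `m`. -/
def artinRels {S : Type*} (M : CoxeterMatrix S) : Set (FreeGroup S) :=
  {r | ∃ s t, s ≠ t ∧ M s t ≠ 0 ∧
    r = altWord (M s t) (FreeGroup.of s) (FreeGroup.of t) *
      (altWord (M s t) (FreeGroup.of t) (FreeGroup.of s))⁻¹}

/-- The Artin group of a Coxeter matrix (the label `0` stands for `∞`). -/
abbrev ArtinGroup {S : Type*} (M : CoxeterMatrix S) : Type _ := PresentedGroup (artinRels M)

end Pool.Agent.H345.RInf
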