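import Pool.Agent.H345.RInfSymp

/-!
The group generated by symplectic transvections over `ZMod p`: simplicity modulo the centre, and
non-existence of fixed-point-free automorphisms.
-/

namespace Pool.Agent.H345.RInf

/-- a linear map for which every vector is an eigenvector is a scalar -/
lemma exists_scalar {F V : Type*} [Field F] [AddCommGroup V] [Module F V] (g : V →ₗ[F] V)
    (h : ∀ v, ∃ c : F, g v = c • v) : ∃ c : F, ∀ v, g v = c • v := by
  by_cases hV : ∃ e : V, e ≠ 0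
  · obtain ⟨e, he⟩ := hV
    obtain ⟨b, hb⟩ := h e
    refine ⟨b, fun x => ?_⟩
    by_cases hx : x = 0
    · simp [hx]
    obtain ⟨a, ha⟩ := h x
    obtain ⟨d, hd⟩ := h (x + e)
    have h1 : (a - d) • x = (d - b) • e := by
      rw [map_add, ha, hb] at hd
      have h2 : a • x + b • e - d • (x + e) = 0 := sub_eq_zero.mpr hd
      have h3 : (a - d) • x - (d - b) • e = a • x + b • e - d • (x + e) := by module
      exact sub_eq_zero.mp (by rw [h3, h2])
    by_cases had : a - d = 0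
    · rw [had, zero_smul] at h1
      have h4 : d - b = 0 := by
        rcases smul_eq_zero.mp h1.symm with h | h
        · exact h
        · exact absurd h he
      rw [ha, sub_eq_zero.mp had, sub_eq_zero.mp h4]
    · have h5 : x = ((a - d)⁻¹ * (d - b)) • e := by
        rw [mul_smul, ← h1, smul_smul, inv_mul_cancel₀ had, one_smul]
      rw [h5, map_smul, hb, smul_comm]
  · push Not at hV
    exact ⟨0, fun v => by rw [hV v]; simp⟩

namespace Symp

variable {F V : Type*} [Field F] [AddCommGroup V] [Module F V] (B : Symp F V)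

lemma tv_eq {u v : V} (hv : v ≠ 0) (h : B.tv u 1 = B.tv v 1) : ∃ c : F, c ^ 2 = 1 ∧ u = c • v := by
  obtain ⟨y, hy⟩ := B.exists_form_ne hv
  have hy' : B.ω y v ≠ 0 := by rw [B.skew]; exact neg_ne_zero.mpr hy
  have h1 : ∀ x, B.ω x u • u = B.ω x v • v := by
    intro x
    have := DFunLike.congr_fun h x
    rw [tv_apply, tv_apply, one_mul, one_mul] at this
    exact add_left_cancel this
  have h2 : v = ((B.ω y v)⁻¹ * B.ω y u) • u := by
    rw [mul_smul, h1, smul_smul, inv_mul_cancel₀ hy', one_smul]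
  set c := (B.ω y v)⁻¹ * B.ω y u with hc
  have hc0 : c ≠ 0 := by
    rintro h0
    rw [h0, zero_smul] at h2
    exact hv h2
  have hu : u ≠ 0 := by
    rintro h0
    rw [h0, smul_zero] at h2
    exact hv h2
  obtain ⟨z, hz⟩ := B.exists_form_ne hu
  have hz' : B.ω z u ≠ 0 := by rw [B.skew]; exact neg_ne_zero.mpr hz
  have h3 := h1 z
  rw [h2, map_smul, smul_eq_mul, smul_smul] at h3
  have h4 : (B.ω z u - c * B.ω z u * c) • u = 0 := by rw [sub_smul, h3, sub_self]
  have h5 : B.ω z u - c * B.ω z u * c = 0 := by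
    rcases smul_eq_zero.mp h4 with h | h
    · exact h
    · exact absurd h hu
  have h6 : c ^ 2 = 1 := by
    have : B.ω z u * (c ^ 2 - 1) = 0 := by linear_combination -h5
    rcases mul_eq_zero.mp this with h | h
    · exact absurd h hz'
    · exact sub_eq_zero.mp h
  refine ⟨c, h6, ?_⟩
  rw [h2, smul_smul, ← pow_two, h6, one_smul]

/-- transvections as elements of `G` -/
def T (v : V) (l : F) : B.G := ⟨B.tv v l, B.tv_mem v l⟩

lemma T_apply (v : V) (l : F) (x : V) : (B.T v l : V ≃ₗ[F] V) x = x + (l * B.ω x v) • v :=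
  B.tv_apply v l x

lemma T_mul (v : V) (l m : F) : B.T v l * B.T v m = B.T v (l + m) :=
  Subtype.ext (B.tv_mul v l m)

lemma T_zero (v : V) : B.T v 0 = 1 := Subtype.ext (B.tv_zero v)

lemma T_zero' (l : F) : B.T 0 l = 1 := Subtype.ext (B.tv_zero' l)

lemma T_inv (v : V) (l : F) : (B.T v l)⁻¹ = B.T v (-l) := Subtype.ext (B.tv_inv v l)

lemma T_smul (v : V) (c l : F) : B.T (c • v) l = B.T v (c ^ 2 * l) :=
  Subtype.ext (B.tv_smul v c l)

lemma T_pow (v : V) (l : F) (n : ℕ) : (B.T v l) ^ n = B.T v (n * l) :=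
  Subtype.ext (B.tv_pow v l n)

lemma conj_T (g : B.G) (v : V) (l : F) : g * B.T v l * g⁻¹ = B.T ((g : V ≃ₗ[F] V) v) l :=
  Subtype.ext (B.conj_tv (g : V ≃ₗ[F] V) (B.G_form _ g.2) v l)

lemma mul_apply (g h : B.G) (x : V) :
    ((g * h : B.G) : V ≃ₗ[F] V) x = (g : V ≃ₗ[F] V) ((h : V ≃ₗ[F] V) x) := rfl

lemma inv_apply_self (g : B.G) (x : V) :
    ((g⁻¹ : B.G) : V ≃ₗ[F] V) ((g : V ≃ₗ[F] V) x) = x :=
  (g : V ≃ₗ[F] V).symm_apply_apply x

lemma apply_inv_self (g : B.G) (x : V) :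
    (g : V ≃ₗ[F] V) (((g⁻¹ : B.G) : V ≃ₗ[F] V) x) = x :=
  (g : V ≃ₗ[F] V).apply_symm_apply x

lemma form (g : B.G) (x y : V) : B.ω ((g : V ≃ₗ[F] V) x) ((g : V ≃ₗ[F] V) y) = B.ω x y :=
  B.G_form _ g.2 x y

lemma G_ext {g h : B.G} (H : ∀ x, (g : V ≃ₗ[F] V) x = (h : V ≃ₗ[F] V) x) : g = h :=
  Subtype.ext (LinearEquiv.ext H)

/-- scalars in `G` square to one -/
lemma scalar_sq [Nontrivial V] (g : B.G) (c : F) (h : ∀ x, (g : V ≃ₗ[F] V) x = c • x) :
    c ^ 2 = 1 := by
  obtain ⟨e, he⟩ := exists_ne (0 : V)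
  obtain ⟨y, hy⟩ := B.exists_form_ne he
  have h1 := B.form g e y
  rw [h, h] at h1
  simp only [map_smul, LinearMap.smul_apply, smul_eq_mul] at h1
  have : B.ω e y * (c ^ 2 - 1) = 0 := by linear_combination h1
  rcases mul_eq_zero.mp this with h | h
  · exact absurd h hy
  · exact sub_eq_zero.mp h

lemma scalar_mem_center (g : B.G) (c : F) (h : ∀ x, (g : V ≃ₗ[F] V) x = c • x) :
    g ∈ Subgroup.center B.G := by
  rw [Subgroup.mem_center_iff]
  intro k
  apply B.G_ext
  intro x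
  rw [mul_apply, mul_apply, h, h, map_smul]

lemma center_scalar [Nontrivial V] (g : B.G) (hg : g ∈ Subgroup.center B.G) :
    ∃ c : F, c ^ 2 = 1 ∧ ∀ x, (g : V ≃ₗ[F] V) x = c • x := by
  have h1 : ∀ v : V, ∃ c : F, (g : V ≃ₗ[F] V) v = c • v := by
    intro v
    by_cases hv : v = 0
    · exact ⟨0, by rw [hv]; simp⟩
    · have h2 := B.conj_T g v 1
      have h3 : g * B.T v 1 * g⁻¹ = B.T v 1 := by
        rw [Subgroup.mem_center_iff] at hg
        rw [← hg, mul_assoc, mul_inv_cancel, mul_one]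
      rw [h3] at h2
      obtain ⟨c, -, hc⟩ := B.tv_eq hv (congrArg Subtype.val h2).symm
      exact ⟨c, hc⟩
  obtain ⟨c, hc⟩ := exists_scalar ((g : V ≃ₗ[F] V) : V →ₗ[F] V) (fun v => h1 v)
  exact ⟨c, B.scalar_sq g c hc, hc⟩

/-- a subgroup containing all transvections is everything -/
lemma eq_top_of_T (N : Subgroup B.G) (h : ∀ v l, B.T v l ∈ N) : N = ⊤ := by
  rw [eq_top_iff]
  rintro ⟨g, hg⟩ -
  have : B.G ≤ N.map B.G.subtype := by
    conv_lhs => rw [Symp.G]
    rw [Subgroup.closure_le]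
    rintro _ ⟨v, l, rfl⟩
    exact ⟨B.T v l, h v l, rfl⟩
  obtain ⟨k, hk, hk'⟩ := this hg
  have : k = ⟨g, hg⟩ := Subtype.ext hk'
  rwa [this] at hk

/-- **Simplicity core.** -/
theorem normal_eq_top [Fintype F] [Nontrivial V] (hF : 7 ≤ Fintype.card F) (h2 : (2 : F) ≠ 0)
    (h15 : (15 : F) ≠ 0) (N : Subgroup B.G) (hN : N.Normal) (m : B.G) (hm : m ∈ N)
    (hmc : m ∉ Subgroup.center B.G) : N = ⊤ := by
  -- an element `m` and a vector `v` with `ω (m v) v ≠ 0`
  obtain ⟨m, hm, v, hv⟩ : ∃ m ∈ N, ∃ v, B.ω ((m : V ≃ₗ[F] V) v) v ≠ 0 := by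
    by_contra hcon
    push Not at hcon
    obtain ⟨v, hv⟩ : ∃ v, ∀ c : F, (m : V ≃ₗ[F] V) v ≠ c • v := by
      by_contra hcon2
      push Not at hcon2
      obtain ⟨c, hc⟩ := exists_scalar ((m : V ≃ₗ[F] V) : V →ₗ[F] V) (fun v => hcon2 v)
      exact hmc (B.scalar_mem_center m c hc)
    set a := (m : V ≃ₗ[F] V) v with ha
    have hab : B.ω a v = 0 := hcon m hm v
    have hab' : B.ω v a = 0 := by rw [B.skew, hab, neg_zero]
    have hm' : B.T a 1 * B.T v (-1) ∈ N := by
      have h1 : m * (B.T v 1 * m⁻¹ * (B.T v 1)⁻¹) ∈ N :=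
        N.mul_mem hm (hN.conj_mem _ (N.inv_mem hm) _)
      have h3 : m * (B.T v 1 * m⁻¹ * (B.T v 1)⁻¹) = B.T a 1 * B.T v (-1) := by
        rw [ha, ← B.conj_T, ← B.T_inv]; group
      rwa [h3] at h1
    let fs : Fin 2 → (V →ₗ[F] F) := fun i => match i with
      | 0 => B.ω.flip (a - v)
      | 1 => B.ω.flip (a + v)
    have aux : ∀ z : V, z ≠ 0 → B.ω.flip z ≠ 0 := by
      intro z hz h0
      apply hz
      apply B.nondeg'
      intro y
      have := LinearMap.congr_fun h0 y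
      simpa using this
    obtain ⟨x, hx⟩ := avoid (F := F) (V := V) (Finset.univ : Finset (Fin 2)) fs (fun _ => 0)
      (by simpa using (by omega : 2 < Fintype.card F)) (by
        intro i _
        fin_cases i
        · apply aux
          intro h0
          exact hv 1 (by rw [one_smul]; exact sub_eq_zero.mp h0)
        · apply aux
          intro h0
          exact hv (-1) (by rw [neg_one_smul]; exact eq_neg_of_add_eq_zero_left h0))
    have x0 : B.ω x (a - v) ≠ 0 := hx 0 (Finset.mem_univ _)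
    have x1 : B.ω x (a + v) ≠ 0 := hx 1 (Finset.mem_univ _)
    have h4 := hcon _ hm' x
    rw [mul_apply, T_apply, T_apply] at h4
    simp only [map_add, map_smul, LinearMap.add_apply, LinearMap.smul_apply, smul_eq_mul, B.alt,
      hab', B.skew v x, B.skew a x] at h4
    have h5 : B.ω x (a - v) * B.ω x (a + v) = 0 := by
      simp only [map_sub, map_add]
      linear_combination -h4
    rcases mul_eq_zero.mp h5 with h | h
    · exact x0 h
    · exact x1 h
  set w := (m : V ≃ₗ[F] V) v with hw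
  set κ := B.ω w v with hκ
  have hvw : B.ω v w = -κ := B.skew v w
  have hbase : ∀ l, B.T w l * B.T v (-l) ∈ N := by
    intro l
    have h1 : m * (B.T v l * m⁻¹ * (B.T v l)⁻¹) ∈ N :=
      N.mul_mem hm (hN.conj_mem _ (N.inv_mem hm) _)
    have h3 : m * (B.T v l * m⁻¹ * (B.T v l)⁻¹) = B.T w l * B.T v (-l) := by
      rw [hw, ← B.conj_T, ← B.T_inv]; group
    rwa [h3] at h1
  have hbase2 : ∀ μ l, B.T (w + (μ * κ) • v) l * B.T w (-l) ∈ N := by
    intro μ l
    have h1 := hN.conj_mem _ (hbase l) (B.T v μ)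
    have h3 : B.T v μ * (B.T w l * B.T v (-l)) * (B.T v μ)⁻¹ =
        B.T (w + (μ * κ) • v) l * B.T v (-l) := by
      have e1 : B.T v μ * (B.T w l * B.T v (-l)) * (B.T v μ)⁻¹ =
        (B.T v μ * B.T w l * (B.T v μ)⁻¹) * (B.T v μ * B.T v (-l) * (B.T v μ)⁻¹) := by group
      rw [e1, B.conj_T, B.conj_T, T_apply, T_apply, B.alt, ← hκ]
      simp
    rw [h3] at h1
    have h4 := N.mul_mem h1 (N.inv_mem (hbase l))
    have h5 : B.T (w + (μ * κ) • v) l * B.T v (-l) * (B.T w l * B.T v (-l))⁻¹ =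
        B.T (w + (μ * κ) • v) l * B.T w (-l) := by
      rw [mul_inv_rev, B.T_inv w]; group
    rwa [h5] at h4
  -- choose `μ`
  let μ : F := -(3 / 2) / κ ^ 2
  set a := w + (μ * κ) • v with ha
  have haw : B.ω a w = 3 / 2 := by
    simp only [ha, map_add, map_smul, LinearMap.add_apply, LinearMap.smul_apply, smul_eq_mul,
      B.alt, hvw, μ]
    field_simp
    ring
  have hwa : B.ω w a = -(3 / 2) := by rw [B.skew, haw]
  have h3 : (3 : F) ≠ 0 := by
    intro h
    apply h15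
    have : (15 : F) = 5 * 3 := by norm_num
    rw [this, h, mul_zero]
  set g : B.G := B.T a 1 * B.T w (-1) with hg
  have hgN : g ∈ N := hbase2 μ 1
  let u := (2 : F) • a - w
  have huw : B.ω u w = 3 := by
    simp only [u, map_sub, map_smul, LinearMap.sub_apply, LinearMap.smul_apply, smul_eq_mul, haw,
      B.alt]
    field_simp
    ring
  have hu0 : u ≠ 0 := by
    intro h0
    rw [h0] at huw
    simp only [map_zero, LinearMap.zero_apply] at huw
    exact h3 huw.symm
  have hgu : (g : V ≃ₗ[F] V) u = (4 : F) • u := by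
    rw [hg, mul_apply, T_apply B w, huw, T_apply]
    have e1 : B.ω (u + (-1 * 3 : F) • w) a = 6 := by
      simp only [u, map_add, map_sub, map_smul, LinearMap.add_apply, LinearMap.sub_apply,
        LinearMap.smul_apply, smul_eq_mul, B.alt, hwa]
      field_simp
      ring
    rw [e1]
    simp only [u]
    module
  have hT : ∀ l, B.T u l ∈ N := by
    intro l
    have h6 : g * (B.T u (l / 15) * g⁻¹ * (B.T u (l / 15))⁻¹) ∈ N :=
      N.mul_mem hgN (hN.conj_mem _ (N.inv_mem hgN) _)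
    have h7 : g * (B.T u (l / 15) * g⁻¹ * (B.T u (l / 15))⁻¹) = B.T u l := by
      have e1 : g * (B.T u (l / 15) * g⁻¹ * (B.T u (l / 15))⁻¹) =
        (g * B.T u (l / 15) * g⁻¹) * (B.T u (l / 15))⁻¹ := by group
      rw [e1, B.conj_T, hgu, B.T_smul, B.T_inv, B.T_mul]
      congr 1
      field_simp
      ring
    rwa [h7] at h6
  apply B.eq_top_of_T
  intro x l
  by_cases hx : x = 0
  · rw [hx, T_zero']; exact N.one_mem
  obtain ⟨h, hh, hhu⟩ := B.trans (by omega) hu0 hx
  have := hN.conj_mem _ (hT l) ⟨h, hh⟩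
  rw [B.conj_T] at this
  change B.T (h u) l ∈ N at this
  rwa [hhu] at this

/-- the simple quotient -/
abbrev Q : Type _ := B.G ⧸ Subgroup.center B.G

/-- the projection to the simple quotient -/
def π : B.G →* B.Q := QuotientGroup.mk' (Subgroup.center B.G)

lemma π_surj : Function.Surjective B.π := QuotientGroup.mk'_surjective _

lemma π_eq_one (g : B.G) : B.π g = 1 ↔ g ∈ Subgroup.center B.G :=
  QuotientGroup.eq_one_iff g

/-- image of transvections in `Q` -/
def t (v : V) (l : F) : B.Q := B.π (B.T v l)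

lemma t_mul (v : V) (l m : F) : B.t v l * B.t v m = B.t v (l + m) := by
  rw [t, t, ← map_mul, T_mul]; rfl

lemma t_pow (v : V) (l : F) (n : ℕ) : (B.t v l) ^ n = B.t v (n * l) := by
  rw [t, ← map_pow, T_pow]; rfl

lemma t_zero (v : V) : B.t v 0 = 1 := by rw [t, T_zero, map_one]

lemma t_inv (v : V) (l : F) : (B.t v l)⁻¹ = B.t v (-l) := by
  rw [t, ← map_inv, T_inv]; rfl

lemma conj_t (g : B.G) (v : V) (l : F) :
    B.π g * B.t v l * (B.π g)⁻¹ = B.t ((g : V ≃ₗ[F] V) v) l := by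
  rw [t, ← map_inv, ← map_mul, ← map_mul, conj_T]; rfl

lemma t_smul (v : V) (c l : F) : B.t (c • v) l = B.t v (c ^ 2 * l) := by
  rw [t, T_smul]; rfl

lemma t_eq_one [Nontrivial V] {v : V} (hv : v ≠ 0) {l : F} (h : B.t v l = 1) : l = 0 := by
  rw [t, π_eq_one] at h
  obtain ⟨c, -, hc⟩ := B.center_scalar _ h
  have h1 := hc v
  rw [T_apply, B.alt, mul_zero, zero_smul, add_zero] at h1
  have hc1 : c = 1 := by
    have : (c - 1) • v = 0 := by rw [sub_smul, ← h1, one_smul, sub_self]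
    rcases smul_eq_zero.mp this with h | h
    · exact sub_eq_zero.mp h
    · exact absurd h hv
  obtain ⟨y, hy⟩ := B.exists_form_ne hv
  have h2 := hc y
  rw [T_apply, hc1, one_smul] at h2
  have h3 : (l * B.ω y v) • v = 0 := by
    have := add_eq_left.mp h2
    exact this
  rcases smul_eq_zero.mp h3 with h | h
  · rcases mul_eq_zero.mp h with h | h
    · exact h
    · exfalso; apply hy; rw [B.skew, h, neg_zero]
  · exact absurd h hv

lemma t_inj [Nontrivial V] {v : V} (hv : v ≠ 0) {l m : F} (h : B.t v l = B.t v m) : l = m := by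
  have h1 : B.t v (l + -m) = 1 := by rw [← t_mul, ← t_inv, h, mul_inv_cancel]
  have := B.t_eq_one hv h1
  linear_combination this

/-- a scaling element -/
lemma exists_double [Fintype F] (hF : 3 ≤ Fintype.card F) (h2 : (2 : F) ≠ 0) {v : V}
    (hv : v ≠ 0) : ∃ h : B.G, (h : V ≃ₗ[F] V) v = (2 : F) • v := by
  obtain ⟨h, hh, e⟩ := B.trans hF hv (smul_ne_zero h2 hv)
  exact ⟨⟨h, hh⟩, e⟩

lemma conj_double {v : V} {h : B.G} (hh : (h : V ≃ₗ[F] V) v = (2 : F) • v) (l : F) :
    B.π h * B.t v l * (B.π h)⁻¹ = B.t v (4 * l) := by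
  rw [conj_t, hh, t_smul]
  norm_num

lemma Q_nc [Fintype F] [Nontrivial V] (hF : 3 ≤ Fintype.card F) (h2 : (2 : F) ≠ 0)
    (h3 : (3 : F) ≠ 0) : ∃ a b : B.Q, a * b ≠ b * a := by
  obtain ⟨v, hv⟩ := exists_ne (0 : V)
  obtain ⟨h, hh⟩ := B.exists_double hF h2 hv
  refine ⟨B.π h, B.t v 1, ?_⟩
  intro heq
  have h4 := B.conj_double hh 1
  rw [heq, mul_assoc, mul_inv_cancel, mul_one] at h4
  have h5 := B.t_inj hv h4
  apply h3
  linear_combination -h5

lemma Q_simple [Fintype F] [Nontrivial V] (hF : 7 ≤ Fintype.card F) (h2 : (2 : F) ≠ 0)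
    (h15 : (15 : F) ≠ 0) : IsSimpleGroup B.Q := by
  have hnt : Nontrivial B.Q := by
    obtain ⟨v, hv⟩ := exists_ne (0 : V)
    refine ⟨B.t v 1, 1, ?_⟩
    intro h
    exact one_ne_zero (B.t_eq_one hv h)
  refine { exists_pair_ne := hnt.exists_pair_ne, eq_bot_or_eq_top_of_normal := ?_ }
  intro N hN
  by_cases hbot : N = ⊥
  · exact Or.inl hbot
  right
  obtain ⟨q, hq, hq1⟩ : ∃ q ∈ N, q ≠ 1 := by
    by_contra hcon
    push Not at hcon
    exact hbot ((Subgroup.eq_bot_iff_forall N).mpr hcon)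
  obtain ⟨m, rfl⟩ := B.π_surj q
  have h1 := B.normal_eq_top hF h2 h15 (N.comap B.π) (hN.comap B.π) m hq
    (fun h => hq1 ((B.π_eq_one m).mpr h))
  rw [eq_top_iff]
  rintro x -
  obtain ⟨g, rfl⟩ := B.π_surj x
  have : g ∈ N.comap B.π := by rw [h1]; trivial
  exact this

end Symp

end Pool.Agent.H345.RInf
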