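import Pool.Agent.H345.RInfAut
import Pool.Agent.H345.RInfDefs

/-!
Symplectic representations of Artin groups over prime fields.
-/

namespace Pool.Agent.H345.RInf

lemma altWord_even {G : Type*} [Monoid G] (x y : G) (k : ℕ) : altWord (2 * k) x y = (x * y) ^ k := by
  induction k with
  | zero => simp [altWord]
  | succ k ih =>
    have : 2 * (k + 1) = 2 * k + 1 + 1 := by ring
    rw [this, altWord, altWord, ih, pow_succ', mul_assoc]

lemma altWord_odd {G : Type*} [Monoid G] (x y : G) (k : ℕ) :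
    altWord (2 * k + 1) x y = (x * y) ^ k * x := by
  induction k with
  | zero => simp [altWord]
  | succ k ih =>
    have : 2 * (k + 1) + 1 = 2 * k + 1 + 1 + 1 := by ring
    rw [this, altWord, altWord, ih, pow_succ']
    simp [mul_assoc]

lemma map_altWord {G H : Type*} [Monoid G] [Monoid H] (f : G →* H) (n : ℕ) (x y : G) :
    f (altWord n x y) = altWord n (f x) (f y) := by
  induction n generalizing x y with
  | zero => exact map_one f
  | succ n ih => rw [altWord, altWord, map_mul, ih]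

/-- Chebyshev-type polynomials -/
def U {F : Type*} [Ring F] (c : F) : ℕ → F
  | 0 => 0
  | 1 => 1
  | n + 2 => c * U c (n + 1) - U c n

lemma U_inv {F : Type*} [CommRing F] (c : F) (n : ℕ) :
    U c (n + 1) ^ 2 - c * U c (n + 1) * U c n + U c n ^ 2 = 1 := by
  induction n with
  | zero => simp [U]
  | succ n ih =>
    rw [U]
    linear_combination ih

lemma U_closed {F : Type*} [Field F] (z : F) (hz : z ≠ 0) (n : ℕ) :
    (z - z⁻¹) * U (z + z⁻¹) n = z ^ n - (z⁻¹) ^ n := by
  have key : ∀ n, (z - z⁻¹) * U (z + z⁻¹) n = z ^ n - (z⁻¹) ^ n ∧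
      (z - z⁻¹) * U (z + z⁻¹) (n + 1) = z ^ (n + 1) - (z⁻¹) ^ (n + 1) := by
    intro n
    induction n with
    | zero => simp [U]
    | succ n ih =>
      obtain ⟨h1, h2⟩ := ih
      refine ⟨h2, ?_⟩
      rw [U]
      have hzz : z * z⁻¹ = 1 := mul_inv_cancel₀ hz
      have e1 : z ^ (n + 1 + 1) - (z⁻¹) ^ (n + 1 + 1) =
          (z + z⁻¹) * (z ^ (n + 1) - (z⁻¹) ^ (n + 1)) - (z * z⁻¹) * (z ^ n - (z⁻¹) ^ n) := by
        ring
      rw [e1, hzz, ← h1, ← h2]
      ring
  exact (key n).1

lemma exists_c (p : ℕ) [Fact p.Prime] (m : ℕ) (hm : 3 ≤ m) (hp : 2 * m ∣ p - 1) :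
    ∃ c : ZMod p, c ≠ 0 ∧ U c m = 0 := by
  have hp1 : 1 < p := (Fact.out : p.Prime).one_lt
  obtain ⟨g, hg⟩ := IsCyclic.exists_ofOrder_eq_natCard (α := (ZMod p)ˣ)
  have hcard : Nat.card (ZMod p)ˣ = p - 1 := by
    rw [Nat.card_eq_fintype_card, ZMod.card_units_eq_totient,
      Nat.totient_prime (Fact.out : p.Prime)]
  rw [hcard] at hg
  set u := g ^ ((p - 1) / (2 * m)) with hu
  have hord : orderOf u = 2 * m := by
    have h1 : orderOf g ≠ 0 := by rw [hg]; omega
    have h3 : 2 * m ∣ orderOf g := by rw [hg]; exact hp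
    have := orderOf_pow_orderOf_div h1 h3
    rwa [hg] at this
  set z : ZMod p := (u : ZMod p) with hz
  have hz0 : z ≠ 0 := u.ne_zero
  have hzpow : ∀ k, z ^ k = 1 ↔ 2 * m ∣ k := by
    intro k
    rw [← hord, orderOf_dvd_iff_pow_eq_one, hz, ← Units.val_pow_eq_pow_val, Units.val_eq_one]
  have hz2 : z ^ 2 ≠ 1 := by
    rw [Ne, hzpow]
    intro h
    have := Nat.le_of_dvd (by norm_num) h
    omega
  have hz4 : z ^ 4 ≠ 1 := by
    rw [Ne, hzpow]
    intro h
    have := Nat.le_of_dvd (by norm_num) h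
    omega
  have hzm : z ^ (2 * m) = 1 := (hzpow _).mpr dvd_rfl
  refine ⟨z + z⁻¹, ?_, ?_⟩
  · intro h
    apply hz4
    have h1 : z ^ 2 = -1 := by
      have : z * (z + z⁻¹) = 0 := by rw [h, mul_zero]
      rw [mul_add, mul_inv_cancel₀ hz0] at this
      linear_combination this
    have : z ^ 4 = (z ^ 2) ^ 2 := by ring
    rw [this, h1]; ring
  · have h1 := U_closed z hz0 m
    have h3 : z ^ m - (z⁻¹) ^ m = 0 := by
      have : z ^ m = (z⁻¹) ^ m := by
        rw [inv_pow]
        apply eq_inv_of_mul_eq_one_left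
        rw [← pow_add, ← two_mul]
        exact hzm
      rw [this, sub_self]
    rw [h3] at h1
    rcases mul_eq_zero.mp h1 with h | h
    · exfalso
      apply hz2
      have : z = z⁻¹ := sub_eq_zero.mp h
      rw [pow_two]
      nth_rewrite 2 [this]
      exact mul_inv_cancel₀ hz0
    · exact h

namespace Symp

variable {F V : Type*} [Field F] [AddCommGroup V] [Module F V] (B : Symp F V)

lemma pow_T_apply (x y : V) (k : ℕ) :
    (((B.T x 1 * B.T y 1) ^ k : B.G) : V ≃ₗ[F] V) x =
      (-1 : F) ^ k • (U (B.ω x y) (2 * k + 1) • x - U (B.ω x y) (2 * k) • y) := by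
  set c := B.ω x y with hc
  have hyx : B.ω y x = -c := B.skew y x
  induction k with
  | zero => simp [U]
  | succ k ih =>
    rw [pow_succ', mul_apply, ih, mul_apply, T_apply B y, T_apply B x]
    have e1 : U c (2 * (k + 1) + 1) = c * U c (2 * (k + 1)) - U c (2 * k + 1) := rfl
    have e2 : U c (2 * (k + 1)) = c * U c (2 * k + 1) - U c (2 * k) := rfl
    rw [e1, e2]
    simp only [map_add, map_sub, map_smul, LinearMap.add_apply, LinearMap.sub_apply,
      LinearMap.smul_apply, smul_eq_mul, B.alt, hyx, ← hc, pow_succ]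
    module

lemma T_sq_eq (x : V) (e : F) (he : e ^ 2 = 1) (l : F) : B.T (e • x) l = B.T x l := by
  rw [T_smul, he, one_mul]

/-- the braid relation of length `m` -/
lemma braid (x y : V) (m : ℕ) (hm : U (B.ω x y) m = 0) :
    altWord m (B.T x 1) (B.T y 1) = altWord m (B.T y 1) (B.T x 1) := by
  have hsq : ∀ k : ℕ, ((-1 : F) ^ k) ^ 2 = 1 := by
    intro k; rw [← pow_mul, mul_comm, pow_mul]; simp
  rcases Nat.even_or_odd' m with ⟨k, rfl | rfl⟩
  · rw [altWord_even, altWord_even]
    have hinv := U_inv (B.ω x y) (2 * k)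
    rw [hm] at hinv
    have h1 : (B.T x 1 * B.T y 1) ^ k * B.T x 1 * ((B.T x 1 * B.T y 1) ^ k)⁻¹ = B.T x 1 := by
      rw [conj_T, pow_T_apply, hm, zero_smul, sub_zero, smul_smul]
      apply B.T_sq_eq
      rw [mul_pow, hsq]
      linear_combination hinv
    have h3 : B.T x 1 * (B.T y 1 * B.T x 1) ^ k * (B.T x 1)⁻¹ = (B.T x 1 * B.T y 1) ^ k := by
      rw [← conj_pow]
      congr 1
      group
    have h4 : (B.T x 1 * B.T y 1) ^ k * B.T x 1 = B.T x 1 * (B.T x 1 * B.T y 1) ^ k :=
      mul_inv_eq_iff_eq_mul.mp h1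
    have h5 : B.T x 1 * (B.T y 1 * B.T x 1) ^ k = (B.T x 1 * B.T y 1) ^ k * B.T x 1 :=
      mul_inv_eq_iff_eq_mul.mp h3
    rw [h4] at h5
    exact (mul_left_cancel h5).symm
  · rw [altWord_odd, altWord_odd]
    have hinv := U_inv (B.ω x y) (2 * k)
    rw [hm] at hinv
    have h1 : (B.T x 1 * B.T y 1) ^ k * B.T x 1 * ((B.T x 1 * B.T y 1) ^ k)⁻¹ = B.T y 1 := by
      rw [conj_T, pow_T_apply, hm, zero_smul, zero_sub, ← neg_smul, smul_smul]
      apply B.T_sq_eq
      rw [mul_pow, hsq]
      linear_combination hinv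
    have h3 : B.T y 1 * (B.T x 1 * B.T y 1) ^ k * (B.T y 1)⁻¹ = (B.T y 1 * B.T x 1) ^ k := by
      rw [← conj_pow]
      congr 1
      group
    have h4 : (B.T x 1 * B.T y 1) ^ k * B.T x 1 = B.T y 1 * (B.T x 1 * B.T y 1) ^ k :=
      mul_inv_eq_iff_eq_mul.mp h1
    have h5 : B.T y 1 * (B.T x 1 * B.T y 1) ^ k = (B.T y 1 * B.T x 1) ^ k * B.T y 1 :=
      mul_inv_eq_iff_eq_mul.mp h3
    rw [h4, h5]

lemma comm_T {x y : V} (h : B.ω x y = 0) : B.T x 1 * B.T y 1 = B.T y 1 * B.T x 1 := by
  have h' : B.ω y x = 0 := by rw [B.skew, h, neg_zero]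
  have h1 := B.conj_T (B.T x 1) y 1
  have e : (B.T x 1 : V ≃ₗ[F] V) y = y := by rw [T_apply, h']; simp
  rw [e] at h1
  exact mul_inv_eq_iff_eq_mul.mp h1

end Symp

/-- existence of a nondegenerate space with prescribed Gram matrix -/
lemma exists_gram {F : Type} [Field F] (h2 : (2 : F) ≠ 0) {S : Type*} [Finite S]
    (C : S → S → F) (hs : ∀ s t, C s t = - C t s) :
    ∃ (V : Type) (_ : AddCommGroup V) (_ : Module F V) (_ : Module.Finite F V)
      (B : Symp F V) (v : S → V), Submodule.span F (Set.range v) = ⊤ ∧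
        ∀ s t, B.ω (v s) (v t) = C s t := by
  classical
  obtain ⟨n, ⟨e⟩⟩ := Finite.exists_equiv_fin S
  let Φ : (Fin n → F) →ₗ[F] (Fin n → F) →ₗ[F] F :=
    Matrix.toLinearMap₂' F (Matrix.of fun i j => C (e.symm i) (e.symm j))
  have hΦ : ∀ x y, Φ x y = ∑ i, ∑ j, x i * C (e.symm i) (e.symm j) * y j := by
    intro x y
    simp only [Φ, Matrix.toLinearMap₂'_apply, Matrix.of_apply, smul_eq_mul]
    refine Finset.sum_congr rfl fun i _ => Finset.sum_congr rfl fun j _ => ?_
    ring
  have hskew : ∀ x y, Φ x y = - Φ y x := by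
    intro x y
    rw [hΦ, hΦ, Finset.sum_comm, ← Finset.sum_neg_distrib]
    refine Finset.sum_congr rfl fun i _ => ?_
    rw [← Finset.sum_neg_distrib]
    refine Finset.sum_congr rfl fun j _ => ?_
    rw [hs]
    ring
  have halt : ∀ x, Φ x x = 0 := by
    intro x
    have h1 := hskew x x
    have : 2 * Φ x x = 0 := by linear_combination h1
    rcases mul_eq_zero.mp this with h | h
    · exact absurd h h2
    · exact h
  let R : Submodule F (Fin n → F) := LinearMap.ker Φ
  have hR : ∀ x, x ∈ R ↔ ∀ y, Φ x y = 0 := by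
    intro x
    rw [LinearMap.mem_ker]
    constructor
    · intro h y; rw [h]; rfl
    · intro h; exact LinearMap.ext h
  obtain ⟨V', hV'⟩ := Submodule.exists_isCompl R
  let q : (Fin n → F) →ₗ[F] V' := Submodule.projectionOnto V' R hV'.symm
  have hq : ∀ x, x - (q x : Fin n → F) ∈ R := fun x => Submodule.sub_projection_mem hV'.symm x
  have hΦq : ∀ x y, Φ (q x) (q y) = Φ x y := by
    intro x y
    have h1 := (hR _).mp (hq x) y
    have h3 := (hR _).mp (hq y) (q x)
    rw [map_sub, LinearMap.sub_apply] at h1 h3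
    rw [hskew y, hskew (q y : Fin n → F)] at h3
    linear_combination -h1 + h3
  let B : Symp F V' :=
    { ω := Φ.domRestrict₁₂ V' V'
      alt := fun x => halt x
      nondeg := by
        intro x hx
        have hxR : (x : Fin n → F) ∈ R := by
          rw [hR]
          intro y
          have h1 := hx (q y)
          have h3 := (hR _).mp (hq y) x
          rw [map_sub, LinearMap.sub_apply] at h3
          rw [hskew]
          have h4 : Φ (x : Fin n → F) (q y : Fin n → F) = 0 := h1
          rw [hskew (q y : Fin n → F), h4] at h3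
          linear_combination -h3
        have h5 : (x : Fin n → F) ∈ R ⊓ V' := ⟨hxR, x.2⟩
        rw [hV'.inf_eq_bot] at h5
        exact Subtype.ext (by simpa using h5) }
  refine ⟨V', inferInstance, inferInstance, inferInstance, B,
    fun s => q (Pi.single (e s) 1), ?_, ?_⟩
  · have h1 : Set.range (fun s => q (Pi.single (e s) (1 : F))) =
        q '' (Set.range (fun i : Fin n => (Pi.single i (1 : F) : Fin n → F))) := by
      ext w
      constructor
      · rintro ⟨s, rfl⟩
        exact ⟨_, ⟨e s, rfl⟩, rfl⟩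
      · rintro ⟨_, ⟨i, rfl⟩, rfl⟩
        exact ⟨e.symm i, by simp⟩
    rw [h1, ← Submodule.map_span]
    have h3 : Submodule.span F (Set.range (fun i : Fin n => (Pi.single i (1 : F) : Fin n → F))) =
        ⊤ := by
      have h4 := (Pi.basisFun F (Fin n)).span_eq
      rw [← h4]
      congr 1
      ext w
      simp
    rw [h3, Submodule.map_top]
    exact Submodule.range_projectionOnto hV'.symm
  · intro s t
    change Φ (q (Pi.single (e s) 1)) (q (Pi.single (e t) 1)) = C s t
    rw [hΦq]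
    rw [hΦ]
    simp [Pi.single_apply]

/-- a homomorphism out of an Artin group -/
def artinLift {S : Type*} (M : CoxeterMatrix S) {G : Type*} [Group G] (f : S → G)
    (h : ∀ s t, s ≠ t → M s t ≠ 0 → altWord (M s t) (f s) (f t) = altWord (M s t) (f t) (f s)) :
    ArtinGroup M →* G :=
  PresentedGroup.toGroup (f := f) (by
    rintro _ ⟨s, t, hst, h0, rfl⟩
    rw [map_mul, map_inv, map_altWord, map_altWord, FreeGroup.lift_apply_of, FreeGroup.lift_apply_of,
      h s t hst h0, mul_inv_cancel])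

lemma artinLift_of {S : Type*} (M : CoxeterMatrix S) {G : Type*} [Group G] (f : S → G)
    (h : ∀ s t, s ≠ t → M s t ≠ 0 → altWord (M s t) (f s) (f t) = altWord (M s t) (f t) (f s)) (s : S) :
    artinLift M f h (PresentedGroup.of s) = f s :=
  PresentedGroup.toGroup.of _

lemma artin_rel {S : Type*} (M : CoxeterMatrix S) (s t : S) (hst : s ≠ t) (h0 : M s t ≠ 0) :
    altWord (M s t) (PresentedGroup.of s : ArtinGroup M) (PresentedGroup.of t) =
      altWord (M s t) (PresentedGroup.of t) (PresentedGroup.of s) := by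
  have h1 : PresentedGroup.mk (artinRels M) (altWord (M s t) (FreeGroup.of s) (FreeGroup.of t) *
      (altWord (M s t) (FreeGroup.of t) (FreeGroup.of s))⁻¹) = 1 :=
    PresentedGroup.one_of_mem ⟨s, t, hst, h0, rfl⟩
  rw [map_mul, map_inv, map_altWord, map_altWord] at h1
  exact mul_inv_eq_one.mp h1

end Pool.Agent.H345.RInf
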