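import Pool.Agent.H345.RInfAbstract
import Pool.Agent.H345.RInfRep

/-!
An Artin group has property `R_∞` if and only if it is not free abelian on its generators.
-/

namespace Pool.Agent.H345.RInf

lemma finite_hom {S : Type*} [Finite S] (M : CoxeterMatrix S) (Q : Type) [Group Q] [Finite Q] :
    Finite (ArtinGroup M →* Q) := by
  apply Finite.of_injective (fun (f : ArtinGroup M →* Q) (s : S) => f (PresentedGroup.of s))
  intro f g h
  exact PresentedGroup.ext (fun s => congrFun h s)

/-- the quotients -/
theorem exists_quotient {S : Type*} [Finite S] (M : CoxeterMatrix S) (s₀ t₀ : S) (hst : s₀ ≠ t₀)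
    (hM : M s₀ t₀ ≠ 2) (n : ℕ) :
    ∃ (Q : Type) (_ : Group Q), Finite Q ∧ n < Nat.card Q ∧ IsSimpleGroup Q ∧
      (∃ a b : Q, a * b ≠ b * a) ∧ (∀ ψ : Q ≃* Q, ∃ x : Q, x ≠ 1 ∧ ψ x = x) ∧
      ∃ f : ArtinGroup M →* Q, Function.Surjective f := by
  classical
  have : Fintype S := Fintype.ofFinite S
  -- the prime
  let K : ℕ := 2 * ∏ q : S × S, (if M q.1 q.2 = 0 then 1 else M q.1 q.2)
  have hK0 : K ≠ 0 := by
    apply mul_ne_zero two_ne_zero
    rw [Finset.prod_ne_zero_iff]
    intro q _
    split_ifs with h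
    · exact one_ne_zero
    · exact h
  have hKdvd : ∀ s t, M s t ≠ 0 → 2 * M s t ∣ K := by
    intro s t h
    apply mul_dvd_mul_left
    have := Finset.dvd_prod_of_mem (fun q : S × S => (if M q.1 q.2 = 0 then 1 else M q.1 q.2))
      (Finset.mem_univ (s, t))
    simpa [h] using this
  obtain ⟨p, hp, hpn, hpK⟩ := Nat.exists_prime_gt_modEq_one (k := K) (max n 7) hK0
  have hp7 : 7 ≤ p := le_trans (le_max_right n 7) hpn.le
  have hpn' : n < p := lt_of_le_of_lt (le_max_left n 7) hpn
  have hfact : Fact p.Prime := ⟨hp⟩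
  have hKp : K ∣ p - 1 := (Nat.modEq_iff_dvd' (by omega)).mp hpK.symm
  -- the coefficients
  have hc : ∀ m : ℕ, ∃ c : ZMod p, (m ≠ 2 → c ≠ 0) ∧ (m = 2 → c = 0) ∧
      ((∃ s t, M s t = m) → 2 ≤ m → U c m = 0) := by
    intro m
    by_cases h2 : m = 2
    · subst h2
      exact ⟨0, fun h => absurd rfl h, fun _ => rfl, fun _ _ => by simp [U]⟩
    by_cases hex : (∃ s t, M s t = m) ∧ 3 ≤ m
    · obtain ⟨⟨s, t, hm⟩, h3⟩ := hex
      obtain ⟨c, hc0, hcU⟩ := exists_c p m h3
        ((hm ▸ hKdvd s t (by omega)).trans hKp)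
      exact ⟨c, fun _ => hc0, fun h => absurd h h2, fun _ _ => hcU⟩
    · refine ⟨1, fun _ => one_ne_zero, fun h => absurd h h2, fun h h' => ?_⟩
      exact absurd ⟨h, by omega⟩ hex
  choose cc hcc1 hcc2 hcc3 using hc
  -- the component
  let adj : S → S → Prop := fun a b => a ≠ b ∧ M a b ≠ 2
  have hadj : ∀ a b, adj a b → adj b a := by
    intro a b h
    refine ⟨h.1.symm, ?_⟩
    rw [M.symmetric]; exact h.2
  let J : Set S := {s | Relation.ReflTransGen adj s₀ s}
  have hJ : ∀ a b, adj a b → (a ∈ J ↔ b ∈ J) := by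
    intro a b h
    constructor
    · intro ha; exact Relation.ReflTransGen.tail ha h
    · intro hb; exact Relation.ReflTransGen.tail hb (hadj a b h)
  obtain ⟨N, ⟨e⟩⟩ := Finite.exists_equiv_fin S
  let C : S → S → ZMod p := fun s t =>
    if adj s t ∧ s ∈ J then (if e s < e t then cc (M s t) else - cc (M s t)) else 0
  have hCskew : ∀ s t, C s t = - C t s := by
    intro s t
    by_cases h : adj s t ∧ s ∈ J
    · have h' : adj t s ∧ t ∈ J := ⟨hadj s t h.1, (hJ s t h.1).mp h.2⟩
      have hne : e s ≠ e t := fun he => h.1.1 (e.injective he)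
      simp only [C, h, h', if_true, and_self]
      rw [M.symmetric t s]
      rcases lt_or_gt_of_ne hne with hlt | hlt
      · rw [if_pos hlt, if_neg (not_lt.mpr hlt.le), neg_neg]
      · rw [if_neg (not_lt.mpr hlt.le), if_pos hlt]
    · have h' : ¬ (adj t s ∧ t ∈ J) := fun h' => h ⟨hadj t s h'.1, (hJ t s h'.1).mp h'.2⟩
      simp only [C, h, h', if_false, neg_zero]
  have hCne : ∀ s t, adj s t → s ∈ J → C s t ≠ 0 := by
    intro s t h hs
    simp only [C, h, hs, and_self, if_true]
    split_ifs
    · exact hcc1 _ h.2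
    · exact neg_ne_zero.mpr (hcc1 _ h.2)
  obtain ⟨V, _, _, _, B, v, hspan, hgram⟩ := exists_gram (Symp.two_ne (p := p) (by omega)) C hCskew
  have hs₀J : s₀ ∈ J := Relation.ReflTransGen.refl
  have h0 : B.ω (v s₀) (v t₀) ≠ 0 := by
    rw [hgram]; exact hCne s₀ t₀ ⟨hst, hM⟩ hs₀J
  have hnt : Nontrivial V := by
    refine ⟨v s₀, 0, fun h => h0 ?_⟩
    rw [h]; simp
  have hfinV : Finite V := Module.finite_of_finite (ZMod p)
  have hv0 : ∀ s, s ∉ J → v s = 0 := by
    intro s hs
    apply B.nondeg
    intro y
    have hy : y ∈ Submodule.span (ZMod p) (Set.range v) := by rw [hspan]; trivial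
    induction hy using Submodule.span_induction with
    | mem y hy =>
      obtain ⟨t, rfl⟩ := hy
      rw [hgram]
      simp only [C, hs, and_false, if_false]
    | zero => simp
    | add x y _ _ hx hy => rw [map_add, hx, hy, add_zero]
    | smul a x _ hx => rw [map_smul, hx, smul_zero]
  have hconn : ∀ s, v s ≠ 0 → Relation.ReflTransGen (fun a b => B.ω (v a) (v b) ≠ 0) s₀ s := by
    intro s hs
    have hsJ : s ∈ J := by
      by_contra h
      exact hs (hv0 s h)
    have key : ∀ s, Relation.ReflTransGen adj s₀ s →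
        Relation.ReflTransGen (fun a b => B.ω (v a) (v b) ≠ 0) s₀ s := by
      intro s hs
      induction hs with
      | refl => exact Relation.ReflTransGen.refl
      | tail hab hbc ih =>
        refine Relation.ReflTransGen.tail ih ?_
        rw [hgram]
        exact hCne _ _ hbc hab
    exact key s hsJ
  -- the representation
  have hrel : ∀ s t, s ≠ t → M s t ≠ 0 →
      altWord (M s t) (B.T (v s) 1) (B.T (v t) 1) = altWord (M s t) (B.T (v t) 1) (B.T (v s) 1) := by
    intro s t hne hM0
    have hM1 : M s t ≠ 1 := M.off_diagonal s t hne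
    by_cases hs : s ∈ J
    · by_cases hM2 : M s t = 2
      · have h1 : B.ω (v s) (v t) = 0 := by
          rw [hgram]
          have : ¬ adj s t := fun h => h.2 hM2
          simp only [C, this, false_and, if_false]
        apply B.braid
        rw [h1, hM2]
        simp [U]
      · have hadjst : adj s t := ⟨hne, hM2⟩
        have hU : U (cc (M s t)) (M s t) = 0 := hcc3 _ ⟨s, t, rfl⟩ (by omega)
        have h1 : B.ω (v s) (v t) = if e s < e t then cc (M s t) else - cc (M s t) := by
          rw [hgram]
          simp only [C, hadjst, hs, and_self, if_true]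
        by_cases hlt : e s < e t
        · apply B.braid
          rw [h1, if_pos hlt]
          exact hU
        · symm
          apply B.braid
          rw [B.skew, h1, if_neg hlt, neg_neg]
          exact hU
    · have h1 : v s = 0 := hv0 s hs
      by_cases hM2 : M s t = 2
      · apply B.braid
        rw [h1, hM2]
        simp [U]
      · have ht : t ∉ J := fun h => hs ((hJ s t ⟨hne, hM2⟩).mpr h)
        rw [h1, hv0 t ht]
  let ρ : ArtinGroup M →* B.G := artinLift M (fun s => B.T (v s) 1) hrel
  have hρ : Function.Surjective ρ := by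
    let H : Subgroup (V ≃ₗ[ZMod p] V) := (B.G.subtype.comp ρ).range
    have hHle : H ≤ B.G := by
      rintro _ ⟨x, rfl⟩
      exact (ρ x).2
    have hΔ : ∀ s, v s ∈ B.Δ H := by
      intro s l
      have h1 : B.tv (v s) 1 ∈ H := by
        refine ⟨PresentedGroup.of s, ?_⟩
        change ((artinLift M (fun s => B.T (v s) 1) hrel (PresentedGroup.of s) : B.G) :
          V ≃ₗ[ZMod p] V) = _
        rw [artinLift_of]
        rfl
      have h3 := H.pow_mem h1 l.val
      rwa [B.tv_pow, ZMod.natCast_val, ZMod.cast_id', id, mul_one] at h3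
    have hHG : H = B.G := B.gen (by rw [ZMod.card]; omega) (Symp.two_ne (by omega)) H hHle v
      hspan s₀ t₀ h0 hconn hΔ
    rintro ⟨g, hg⟩
    rw [← hHG] at hg
    obtain ⟨x, hx⟩ := hg
    exact ⟨x, Subtype.ext hx⟩
  have hcard : Fintype.card (ZMod p) = p := ZMod.card p
  refine ⟨B.Q, inferInstance, inferInstance, ?_, ?_, ?_, ?_, B.π.comp ρ, ?_⟩
  · obtain ⟨w, hw⟩ := exists_ne (0 : V)
    have hinj : Function.Injective (fun l : ZMod p => B.t w l) := fun l m h => B.t_inj hw h
    have h1 := Nat.card_le_card_of_injective _ hinj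
    rw [Nat.card_eq_fintype_card, hcard] at h1
    exact lt_of_lt_of_le hpn' h1
  · exact B.Q_simple (by rw [hcard]; exact hp7) (Symp.two_ne (by omega)) (Symp.fifteen_ne hp7)
  · exact B.Q_nc (by rw [hcard]; omega) (Symp.two_ne (by omega)) (Symp.three_ne (by omega))
  · exact B.Q_fixed (by omega)
  · exact B.π_surj.comp hρ

theorem hasRInf_artin {S : Type*} [Finite S] (M : CoxeterMatrix S) (s t : S) (hst : s ≠ t)
    (hM : M s t ≠ 2) : HasRInf (ArtinGroup M) := by
  apply hasRInf_of_quotients
  · intro Q _ _
    exact finite_hom M Q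
  · exact exists_quotient M s t hst hM

/-- finitely generated abelian groups do not have property `R_∞` -/
lemma not_hasRInf_of_comm {A : Type*} [CommGroup A] [Group.FG A] : ¬ HasRInf A := by
  intro h
  have h1 := h (MulEquiv.inv A)
  let P : Subgroup A := (powMonoidHom 2 : A →* A).range
  have hfin : Finite (A ⧸ P) := by
    apply CommGroup.finite_of_fg_isMulTorsion
    intro x
    obtain ⟨a, rfl⟩ := QuotientGroup.mk_surjective x
    rw [isOfFinOrder_iff_pow_eq_one]
    refine ⟨2, by norm_num, ?_⟩
    rw [← QuotientGroup.mk_pow, QuotientGroup.eq_one_iff]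
    exact ⟨a, rfl⟩
  let f : Quotient (twSetoid (MulEquiv.inv A)) → A ⧸ P :=
    Quotient.lift (fun a => (a : A ⧸ P)) (by
      rintro a b ⟨g, hg⟩
      rw [QuotientGroup.eq]
      refine ⟨g, ?_⟩
      rw [hg]
      simp only [powMonoidHom_apply, MulEquiv.inv_apply, inv_inv]
      rw [pow_two]
      have : g * a * g = a * (g * g) := by rw [mul_comm g a, mul_assoc]
      rw [this, inv_mul_cancel_left])
  have hinj : Function.Injective f := by
    intro x y hxy
    induction x using Quotient.inductionOn with | _ a => ?_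
    induction y using Quotient.inductionOn with | _ b => ?_
    have h3 : (a : A ⧸ P) = b := hxy
    rw [QuotientGroup.eq] at h3
    obtain ⟨g, hg⟩ := h3
    apply Quotient.sound
    refine ⟨g, ?_⟩
    simp only [powMonoidHom_apply] at hg
    rw [MulEquiv.inv_apply, inv_inv, mul_comm g a, mul_assoc, ← pow_two, hg, mul_inv_cancel_left]
  exact (Finite.of_injective f hinj).false

lemma comm_artin {S : Type*} (M : CoxeterMatrix S) (hM : ∀ s t, s ≠ t → M s t = 2) :
    ∀ a b : ArtinGroup M, a * b = b * a := by
  have hgen : ∀ s t, (PresentedGroup.of s : ArtinGroup M) * PresentedGroup.of t =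
      PresentedGroup.of t * PresentedGroup.of s := by
    intro s t
    by_cases h : s = t
    · rw [h]
    · have h1 := artin_rel M s t h (by rw [hM s t h]; norm_num)
      rw [hM s t h] at h1
      simpa [altWord] using h1
  have h1 : ∀ s, (PresentedGroup.of s : ArtinGroup M) ∈ Subgroup.center (ArtinGroup M) := by
    intro s
    rw [Subgroup.mem_center_iff]
    intro g
    have hg : g ∈ Subgroup.centralizer {(PresentedGroup.of s : ArtinGroup M)} := by
      apply PresentedGroup.generated_by
      intro t
      rw [Subgroup.mem_centralizer_singleton_iff]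
      exact hgen t s
    exact Subgroup.mem_centralizer_singleton_iff.mp hg
  intro a b
  have hb : b ∈ Subgroup.center (ArtinGroup M) := PresentedGroup.generated_by _ _ h1 b
  exact Subgroup.mem_center_iff.mp hb a

instance fg_artin {S : Type*} [Finite S] (M : CoxeterMatrix S) : Group.FG (ArtinGroup M) :=
  Group.fg_of_surjective (PresentedGroup.mk_surjective (artinRels M))

theorem not_hasRInf_artin {S : Type*} [Finite S] (M : CoxeterMatrix S)
    (hM : ∀ s t, s ≠ t → M s t = 2) : ¬ HasRInf (ArtinGroup M) := by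
  let _ : CommGroup (ArtinGroup M) :=
    { (inferInstance : Group (ArtinGroup M)) with mul_comm := comm_artin M hM }
  exact not_hasRInf_of_comm

/-- **Classification of the Artin groups with property `R_∞`.** -/
theorem classification {S : Type*} [Finite S] (M : CoxeterMatrix S) :
    HasRInf (ArtinGroup M) ↔ ∃ s t, s ≠ t ∧ M s t ≠ 2 := by
  constructor
  · intro h
    by_contra hcon
    push Not at hcon
    exact not_hasRInf_artin M hcon h
  · rintro ⟨s, t, hst, hM⟩
    exact hasRInf_artin M s t hst hM

end Pool.Agent.H345.RInf
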