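import Mathlib

/-!
Symplectic transvections over a prime field: generation by few transvections.
-/

namespace Pool.Agent.H345.RInf

section Avoid

variable {F : Type*} [Field F] [Fintype F] {V : Type*} [AddCommGroup V] [Module F V]

lemma avoid {ι : Type*} (s : Finset ι) (f : ι → (V →ₗ[F] F)) (c : ι → F)
    (hs : s.card < Fintype.card F) (hf : ∀ i ∈ s, f i ≠ 0) : ∃ x, ∀ i ∈ s, f i x ≠ c i := by
  classical
  induction s using Finset.induction_on with
  | empty => exact ⟨0, by simp⟩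
  | insert a s has ih =>
    obtain ⟨x, hx⟩ := ih (lt_of_le_of_lt (Finset.card_le_card (Finset.subset_insert a s)) hs)
      (fun i hi => hf i (Finset.mem_insert_of_mem hi))
    obtain ⟨u, hu⟩ : ∃ u, f a u ≠ 0 := by
      by_contra hcon
      push Not at hcon
      exact hf a (Finset.mem_insert_self a s) (LinearMap.ext hcon)
    let bad : Finset F := (insert a s).image (fun i => (c i - f i x) / f i u)
    have hbad : bad.card < (Finset.univ : Finset F).card :=
      lt_of_le_of_lt Finset.card_image_le (by simpa using hs)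
    obtain ⟨t, -, ht⟩ := Finset.exists_mem_notMem_of_card_lt_card hbad
    refine ⟨x + t • u, ?_⟩
    intro i hi heq
    have heq' : f i x + t * f i u = c i := by simpa using heq
    by_cases h0 : f i u = 0
    · rw [h0, mul_zero, add_zero] at heq'
      rcases Finset.mem_insert.mp hi with h | h
      · subst h; exact hu h0
      · exact hx i h heq'
    · apply ht
      rw [Finset.mem_image]
      refine ⟨i, hi, ?_⟩
      field_simp
      rw [← heq']; ring

end Avoid

/-- a nondegenerate alternating form -/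
structure Symp (F V : Type*) [Field F] [AddCommGroup V] [Module F V] where
  ω : V →ₗ[F] V →ₗ[F] F
  alt : ∀ x, ω x x = 0
  nondeg : ∀ x, (∀ y, ω x y = 0) → x = 0

namespace Symp

variable {F V : Type*} [Field F] [AddCommGroup V] [Module F V] (B : Symp F V)

lemma skew (x y : V) : B.ω x y = - B.ω y x := by
  have h := B.alt (x + y)
  simp only [map_add, LinearMap.add_apply, B.alt, zero_add, add_zero] at h
  exact eq_neg_of_add_eq_zero_right h

lemma nondeg' (x : V) (h : ∀ y, B.ω y x = 0) : x = 0 := by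
  apply B.nondeg
  intro y
  rw [B.skew, h, neg_zero]

/-- the linear map `x ↦ x + l ω(x,v) v` -/
def tvL (v : V) (l : F) : V →ₗ[F] V :=
  LinearMap.id + (l • (B.ω.flip v)).smulRight v

lemma tvL_apply (v : V) (l : F) (x : V) : B.tvL v l x = x + (l * B.ω x v) • v := by
  simp [tvL]

lemma tvL_comp (v : V) (l m : F) (x : V) : B.tvL v l (B.tvL v m x) = B.tvL v (l + m) x := by
  simp only [tvL_apply, map_add, map_smul, B.alt, mul_zero]
  module

/-- the transvection `x ↦ x + l ω(x,v) v` -/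
def tv (v : V) (l : F) : V ≃ₗ[F] V where
  toFun := B.tvL v l
  invFun := B.tvL v (-l)
  map_add' := map_add _
  map_smul' := map_smul _
  left_inv x := by
    rw [tvL_comp, tvL_apply]; simp
  right_inv x := by
    rw [tvL_comp, tvL_apply]; simp

lemma tv_apply (v : V) (l : F) (x : V) : B.tv v l x = x + (l * B.ω x v) • v :=
  B.tvL_apply v l x

lemma tv_mul (v : V) (l m : F) : B.tv v l * B.tv v m = B.tv v (l + m) := by
  ext x
  exact B.tvL_comp v l m x

lemma tv_zero (v : V) : B.tv v 0 = 1 := by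
  ext x
  rw [tv_apply]; simp

lemma tv_zero' (l : F) : B.tv 0 l = 1 := by
  ext x
  rw [tv_apply]; simp

lemma tv_inv (v : V) (l : F) : (B.tv v l)⁻¹ = B.tv v (-l) := by
  rw [inv_eq_iff_mul_eq_one, tv_mul, add_neg_cancel, tv_zero]

lemma tv_smul (v : V) (c l : F) : B.tv (c • v) l = B.tv v (c ^ 2 * l) := by
  ext x
  simp only [tv_apply, map_smul, smul_eq_mul, smul_smul]
  congr 2
  ring

lemma tv_pow (v : V) (l : F) (n : ℕ) : (B.tv v l) ^ n = B.tv v (n * l) := by
  induction n with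
  | zero => simp [tv_zero]
  | succ n ih =>
    rw [pow_succ, ih, tv_mul]
    congr 1
    push_cast; ring

lemma tv_form (v : V) (l : F) (x y : V) : B.ω (B.tv v l x) (B.tv v l y) = B.ω x y := by
  simp only [tv_apply, map_add, map_smul, LinearMap.add_apply, LinearMap.smul_apply, B.alt,
    smul_eq_mul, mul_zero, add_zero]
  rw [B.skew v y]
  ring

lemma conj_tv (g : V ≃ₗ[F] V) (hg : ∀ x y, B.ω (g x) (g y) = B.ω x y) (v : V) (l : F) :
    g * B.tv v l * g⁻¹ = B.tv (g v) l := by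
  ext x
  obtain ⟨y, rfl⟩ := g.surjective x
  have e : (g⁻¹ : V ≃ₗ[F] V) (g y) = y := g.symm_apply_apply y
  change g (B.tv v l ((g⁻¹ : V ≃ₗ[F] V) (g y))) = B.tv (g v) l (g y)
  rw [e, tv_apply, tv_apply, hg, map_add, map_smul]

/-- the group generated by all transvections -/
def G : Subgroup (V ≃ₗ[F] V) := Subgroup.closure {g | ∃ v l, g = B.tv v l}

lemma tv_mem (v : V) (l : F) : B.tv v l ∈ B.G := Subgroup.subset_closure ⟨v, l, rfl⟩

lemma G_form (g : V ≃ₗ[F] V) (hg : g ∈ B.G) : ∀ x y, B.ω (g x) (g y) = B.ω x y := by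
  induction hg using Subgroup.closure_induction with
  | mem g hg =>
    obtain ⟨v, l, rfl⟩ := hg
    exact B.tv_form v l
  | one => intro x y; rfl
  | mul g h _ _ hg hh =>
    intro x y
    change B.ω (g (h x)) (g (h y)) = _
    rw [hg, hh]
  | inv g _ hg =>
    intro x y
    have h := hg (g⁻¹ x) (g⁻¹ y)
    have e : ∀ z, g ((g⁻¹ : V ≃ₗ[F] V) z) = z := fun z => g.apply_symm_apply z
    rw [e, e] at h
    exact h.symm

lemma exists_form_ne {u : V} (hu : u ≠ 0) : ∃ y, B.ω u y ≠ 0 := by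
  by_contra hcon
  push Not at hcon
  exact hu (B.nondeg u hcon)

/-- the vectors all of whose transvections lie in `H` -/
def Δ (H : Subgroup (V ≃ₗ[F] V)) : Set V := {v | ∀ l, B.tv v l ∈ H}

lemma Δ_map (H : Subgroup (V ≃ₗ[F] V)) (hH : H ≤ B.G) {g : V ≃ₗ[F] V} (hg : g ∈ H) {v : V}
    (hv : v ∈ B.Δ H) : g v ∈ B.Δ H := by
  intro l
  rw [← B.conj_tv g (B.G_form g (hH hg))]
  exact H.mul_mem (H.mul_mem hg (hv l)) (H.inv_mem hg)

lemma Δ_smul (H : Subgroup (V ≃ₗ[F] V)) {v : V} (hv : v ∈ B.Δ H) (c : F) : c • v ∈ B.Δ H := by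
  intro l
  rw [B.tv_smul]
  exact hv _

lemma Δ_smul_iff (H : Subgroup (V ≃ₗ[F] V)) {v : V} {c : F} (hc : c ≠ 0) :
    c • v ∈ B.Δ H ↔ v ∈ B.Δ H := by
  refine ⟨fun h => ?_, fun h => B.Δ_smul H h c⟩
  have := B.Δ_smul H h c⁻¹
  rwa [smul_smul, inv_mul_cancel₀ hc, one_smul] at this

lemma Δ_add (H : Subgroup (V ≃ₗ[F] V)) (hH : H ≤ B.G) {u v : V}
    (hu : u ∈ B.Δ H) (hv : v ∈ B.Δ H) (huv : B.ω u v ≠ 0) : u + v ∈ B.Δ H := by
  have h := B.Δ_map H hH (hv (B.ω u v)⁻¹) hu
  rw [B.tv_apply, inv_mul_cancel₀ huv, one_smul] at h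
  exact h

/-- good subspaces -/
def Good (H : Subgroup (V ≃ₗ[F] V)) (X : Submodule F V) : Prop :=
  (∀ x ∈ X, (∃ y ∈ X, B.ω x y ≠ 0) → x ∈ B.Δ H) ∧ ∃ x ∈ X, ∃ y ∈ X, B.ω x y ≠ 0

lemma good_base (H : Subgroup (V ≃ₗ[F] V)) (hH : H ≤ B.G) {u v : V}
    (hu : u ∈ B.Δ H) (hv : v ∈ B.Δ H) (huv : B.ω u v ≠ 0) :
    B.Good H (Submodule.span F {u, v}) := by
  refine ⟨?_, u, Submodule.subset_span (by simp), v, Submodule.subset_span (by simp), huv⟩
  rintro x hx -
  obtain ⟨a, b, rfl⟩ := Submodule.mem_span_pair.mp hx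
  by_cases ha : a = 0
  · rw [ha, zero_smul, zero_add]; exact B.Δ_smul H hv b
  by_cases hb : b = 0
  · rw [hb, zero_smul, add_zero]; exact B.Δ_smul H hu a
  apply B.Δ_add H hH (B.Δ_smul H hu a) (B.Δ_smul H hv b)
  simp only [map_smul, LinearMap.smul_apply, smul_eq_mul]
  exact mul_ne_zero hb (mul_ne_zero ha huv)

lemma good_extend [Fintype F] (hF : 5 ≤ Fintype.card F) (h2 : (2 : F) ≠ 0)
    (H : Subgroup (V ≃ₗ[F] V)) (hH : H ≤ B.G) (X : Submodule F V) (hX : B.Good H X)
    {e : V} (he : e ∈ B.Δ H) (hXe : ∃ x ∈ X, B.ω x e ≠ 0) :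
    B.Good H (X ⊔ Submodule.span F {e}) := by
  obtain ⟨hX1, x₁, hx₁, z₁, hz₁, hxz⟩ := hX
  obtain ⟨x₀, hx₀, hx₀e⟩ := hXe
  refine ⟨?_, x₁, Submodule.mem_sup_left hx₁, z₁, Submodule.mem_sup_left hz₁, hxz⟩
  -- the case `y = x + e`
  have case1 : ∀ x ∈ X, (∃ y ∈ X ⊔ Submodule.span F {e}, B.ω (x + e) y ≠ 0) →
      x + e ∈ B.Δ H := by
    intro x hx hy
    -- the functional `ω(·, x+e)` on `X` is nonzero
    have hfy : ∃ z ∈ X, B.ω z (x + e) ≠ 0 := by
      by_contra hcon
      push Not at hcon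
      obtain ⟨y, hyX, hyne⟩ := hy
      obtain ⟨z, hz, w, hw, rfl⟩ := Submodule.mem_sup.mp hyX
      obtain ⟨c, rfl⟩ := Submodule.mem_span_singleton.mp hw
      apply hyne
      have h1 : B.ω (x + e) z = 0 := by rw [B.skew, hcon z hz, neg_zero]
      have h3 : B.ω x e = 0 := by
        have := hcon x hx
        rwa [map_add, B.alt, zero_add] at this
      rw [map_add, h1, map_smul, map_add, LinearMap.add_apply, h3, B.alt]
      simp
    obtain ⟨z₂, hz₂, hz₂'⟩ := hfy
    let fs : Fin 4 → (X →ₗ[F] F) := fun i => match i with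
      | 0 => (B.ω.flip z₁).comp X.subtype
      | 1 => (B.ω.flip z₁).comp X.subtype
      | 2 => (B.ω.flip e).comp X.subtype
      | 3 => (B.ω.flip (x + e)).comp X.subtype
    let cs : Fin 4 → F := fun i => match i with
      | 0 => 0
      | 1 => B.ω x z₁
      | 2 => 0
      | 3 => B.ω x e
    obtain ⟨⟨x', hx'⟩, hav⟩ := avoid (F := F) (V := X) (Finset.univ : Finset (Fin 4)) fs cs
      (by simpa using (by omega : 4 < Fintype.card F)) (by
        intro i _
        have aux : ∀ (w : V) (z : V) (hz : z ∈ X), B.ω z w ≠ 0 →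
            (B.ω.flip w).comp X.subtype ≠ 0 := by
          intro w z hz hne h0
          apply hne
          have := LinearMap.congr_fun h0 ⟨z, hz⟩
          simpa using this
        fin_cases i
        · exact aux z₁ x₁ hx₁ hxz
        · exact aux z₁ x₁ hx₁ hxz
        · exact aux e x₀ hx₀ hx₀e
        · exact aux (x + e) z₂ hz₂ hz₂')
    have a0 : B.ω x' z₁ ≠ 0 := hav 0 (Finset.mem_univ _)
    have a1 : B.ω x' z₁ ≠ B.ω x z₁ := hav 1 (Finset.mem_univ _)
    have a2 : B.ω x' e ≠ 0 := hav 2 (Finset.mem_univ _)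
    have a3 : B.ω x' (x + e) ≠ B.ω x e := hav 3 (Finset.mem_univ _)
    have b1 : x' ∈ B.Δ H := hX1 x' hx' ⟨z₁, hz₁, a0⟩
    have b2 : x - x' ∈ B.Δ H := by
      apply hX1 _ (X.sub_mem hx hx') ⟨z₁, hz₁, ?_⟩
      rw [map_sub, LinearMap.sub_apply]
      exact sub_ne_zero.mpr (Ne.symm a1)
    have b3 : x' + e ∈ B.Δ H := B.Δ_add H hH b1 he a2
    have b4 : B.ω (x - x') (x' + e) ≠ 0 := by
      have : B.ω (x - x') (x' + e) = B.ω x e - B.ω x' (x + e) := by
        simp only [map_sub, map_add, LinearMap.sub_apply, B.alt]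
        rw [B.skew x x']
        ring
      rw [this]
      exact sub_ne_zero.mpr (Ne.symm a3)
    have := B.Δ_add H hH b2 b3 b4
    have e1 : x - x' + (x' + e) = x + e := by abel
    rwa [e1] at this
  intro y hy hyne
  obtain ⟨x, hx, w, hw, rfl⟩ := Submodule.mem_sup.mp hy
  obtain ⟨a, rfl⟩ := Submodule.mem_span_singleton.mp hw
  by_cases ha : a = 0
  · subst ha
    rw [zero_smul, add_zero] at hyne ⊢
    by_cases hr : ∃ z ∈ X, B.ω x z ≠ 0
    · exact hX1 x hx hr
    push Not at hr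
    obtain ⟨y, hyX, hyne⟩ := hyne
    obtain ⟨z, hz, w, hw, rfl⟩ := Submodule.mem_sup.mp hyX
    obtain ⟨c, rfl⟩ := Submodule.mem_span_singleton.mp hw
    have hxe : B.ω x e ≠ 0 := by
      intro h0
      apply hyne
      rw [map_add, hr z hz, map_smul, h0]; simp
    set κ := B.ω x e with hκ
    let τ := (κ - B.ω x₁ e) / κ
    let x₂ := x₁ + τ • x
    have hx₂ : x₂ ∈ X := X.add_mem hx₁ (X.smul_mem _ hx)
    have hx₂e : B.ω x₂ e = κ := by
      simp only [x₂, map_add, map_smul, LinearMap.add_apply, LinearMap.smul_apply, smul_eq_mul, τ,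
        ← hκ]
      field_simp
      ring
    have hx₂z : B.ω x₂ z₁ ≠ 0 := by
      simp only [x₂, map_add, map_smul, LinearMap.add_apply, LinearMap.smul_apply, smul_eq_mul,
        hr z₁ hz₁, mul_zero, add_zero]
      exact hxz
    have c1 : x₂ ∈ B.Δ H := hX1 x₂ hx₂ ⟨z₁, hz₁, hx₂z⟩
    have c2 : x + x₂ ∈ B.Δ H := by
      apply hX1 _ (X.add_mem hx hx₂) ⟨z₁, hz₁, ?_⟩
      rw [map_add, LinearMap.add_apply, hr z₁ hz₁, zero_add]
      exact hx₂z
    have c3 : x₂ + e ∈ B.Δ H := B.Δ_add H hH c1 he (by rw [hx₂e]; exact hxe)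
    have c4 : x + x₂ + e ∈ B.Δ H := B.Δ_add H hH c2 he (by
      rw [map_add, LinearMap.add_apply, hx₂e, ← hκ, ← two_mul]
      exact mul_ne_zero h2 hxe)
    have c5 : (-1 : F) • (x₂ + e) ∈ B.Δ H := B.Δ_smul H c3 _
    have c6 := B.Δ_add H hH c4 c5 (by
      have : B.ω (x + x₂ + e) ((-1 : F) • (x₂ + e)) = - κ := by
        simp only [map_add, map_smul, LinearMap.add_apply, smul_eq_mul, B.alt, hr x₂ hx₂,
          hx₂e, ← hκ, B.skew e x₂]
        ring
      rw [this]
      exact neg_ne_zero.mpr hxe)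
    have e1 : x + x₂ + e + (-1 : F) • (x₂ + e) = x := by module
    rwa [e1] at c6
  · have e1 : x + a • e = a • (a⁻¹ • x + e) := by
      rw [smul_add, smul_smul, mul_inv_cancel₀ ha, one_smul]
    rw [e1] at hyne ⊢
    rw [B.Δ_smul_iff H ha]
    apply case1 _ (X.smul_mem _ hx)
    obtain ⟨y, hy, hne⟩ := hyne
    refine ⟨y, hy, ?_⟩
    intro h0
    apply hne
    rw [map_smul, LinearMap.smul_apply, h0, smul_zero]

/-- **Generation.** Transvections along a connected spanning family generate everything. -/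
theorem gen [Fintype F] [Module.Finite F V] (hF : 5 ≤ Fintype.card F) (h2 : (2 : F) ≠ 0)
    (H : Subgroup (V ≃ₗ[F] V)) (hH : H ≤ B.G) {S : Type*} (v : S → V)
    (hspan : Submodule.span F (Set.range v) = ⊤) (s₀ t₀ : S) (h0 : B.ω (v s₀) (v t₀) ≠ 0)
    (hconn : ∀ s, v s ≠ 0 → Relation.ReflTransGen (fun a b => B.ω (v a) (v b) ≠ 0) s₀ s)
    (hΔ : ∀ s, v s ∈ B.Δ H) : H = B.G := by
  have hfinV : Finite V := Module.finite_of_finite F
  obtain ⟨X, hXle, hXmax⟩ : ∃ X : Submodule F V, Submodule.span F {v s₀, v t₀} ≤ X ∧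
      Maximal (fun Y => B.Good H Y) X :=
    Finite.exists_le_maximal (B.good_base H hH (hΔ s₀) (hΔ t₀) h0)
  have hgood := hXmax.1
  have step : ∀ s, v s ∉ X → ∀ x ∈ X, B.ω x (v s) = 0 := by
    intro s hs x hx
    by_contra hne
    have h1 := B.good_extend hF h2 H hH X hgood (hΔ s) ⟨x, hx, hne⟩
    have h3 := hXmax.2 h1 le_sup_left
    exact hs (h3 (Submodule.mem_sup_right (Submodule.mem_span_singleton_self _)))
  have hs₀ : v s₀ ∈ X := hXle (Submodule.subset_span (by simp))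
  have hall : ∀ s, v s ∈ X := by
    intro s
    by_cases hs : v s = 0
    · rw [hs]; exact X.zero_mem
    have := hconn s hs
    clear hs
    induction this with
    | refl => exact hs₀
    | tail _ hbc ih =>
      rename_i b c _
      by_contra hc
      exact hbc (step c hc _ ih)
  have hXtop : X = ⊤ := by
    rw [eq_top_iff, ← hspan, Submodule.span_le]
    rintro _ ⟨s, rfl⟩
    exact hall s
  apply le_antisymm hH
  rw [Symp.G, Subgroup.closure_le]
  rintro _ ⟨x, l, rfl⟩
  by_cases hx : x = 0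
  · rw [hx, tv_zero']; exact H.one_mem
  · obtain ⟨y, hy⟩ := B.exists_form_ne hx
    exact hgood.1 x (by rw [hXtop]; trivial) ⟨y, by rw [hXtop]; trivial, hy⟩ l

/-- transitivity on nonzero vectors -/
lemma trans [Fintype F] (hF : 3 ≤ Fintype.card F) {u w : V} (hu : u ≠ 0) (hw : w ≠ 0) :
    ∃ g ∈ B.G, g u = w := by
  have step : ∀ {u w : V}, B.ω u w ≠ 0 → ∃ g ∈ B.G, g u = w := by
    intro u w h
    refine ⟨B.tv (w - u) (B.ω u w)⁻¹, B.tv_mem _ _, ?_⟩
    rw [tv_apply, map_sub, B.alt, sub_zero, inv_mul_cancel₀ h, one_smul]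
    abel
  by_cases h : B.ω u w ≠ 0
  · exact step h
  let fs : Fin 2 → (V →ₗ[F] F) := fun i => match i with
    | 0 => B.ω u
    | 1 => B.ω w
  obtain ⟨z, hz⟩ := avoid (F := F) (V := V) (Finset.univ : Finset (Fin 2)) fs (fun _ => 0)
    (by simpa using (by omega : 2 < Fintype.card F)) (by
      intro i _
      fin_cases i
      · intro h0
        apply hu
        exact B.nondeg u (fun y => by
          have := LinearMap.congr_fun h0 y
          simpa [fs] using this)
      · intro h0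
        apply hw
        exact B.nondeg w (fun y => by
          have := LinearMap.congr_fun h0 y
          simpa [fs] using this))
  have z0 : B.ω u z ≠ 0 := hz 0 (Finset.mem_univ _)
  have z1 : B.ω w z ≠ 0 := hz 1 (Finset.mem_univ _)
  obtain ⟨g, hg, hgu⟩ := step z0
  obtain ⟨g', hg', hgz⟩ := step (u := z) (w := w) (by rw [B.skew]; exact neg_ne_zero.mpr z1)
  exact ⟨g' * g, B.G.mul_mem hg' hg, by change g' (g u) = w; rw [hgu, hgz]⟩

end Symp

end Pool.Agent.H345.RInf
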